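import Mathlib
import Pool.Agent.Helper92.IncDepth.Chain

/-!
# IDQ (helper67): counting of the embeddings of a pattern (MP_49a8fd_lc), definitions and counting lemmas
-/

set_option autoImplicit false

namespace Pool.Agent.IDQ

open Finset Pool.Agent.Helper92.IncDepth Function

variable {α : Type}

/-- the number of first occurrences before `t` -/
noncomputable def cnt (P : Pattern α) (t : ℕ) : ℕ := ((firstPos P).filter (· < t)).card

theorem cnt_succ_mem {P : Pattern α} {t : ℕ} (h : t ∈ firstPos P) : cnt P (t + 1) = cnt P t + 1 := by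
  unfold cnt
  have h1 : (firstPos P).filter (· < t + 1) = insert t ((firstPos P).filter (· < t)) := by
    ext j
    simp only [mem_filter, mem_insert]
    constructor
    · rintro ⟨h2, h3⟩
      by_cases h4 : j = t
      · exact Or.inl h4
      · exact Or.inr ⟨h2, by omega⟩
    · rintro (rfl | ⟨h2, h3⟩)
      · exact ⟨h, by omega⟩
      · exact ⟨h2, by omega⟩
  rw [h1, card_insert_of_notMem (by simp)]

theorem cnt_succ_notMem {P : Pattern α} {t : ℕ} (h : t ∉ firstPos P) : cnt P (t + 1) = cnt P t := by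
  unfold cnt
  congr 1
  ext j
  simp only [mem_filter]
  constructor
  · rintro ⟨h2, h3⟩
    have : j ≠ t := fun h4 => h (h4 ▸ h2)
    exact ⟨h2, by omega⟩
  · rintro ⟨h2, h3⟩
    exact ⟨h2, by omega⟩

theorem cnt_zero (P : Pattern α) : cnt P 0 = 0 := by
  unfold cnt
  rw [card_eq_zero, filter_eq_empty_iff]
  intro j _
  omega

theorem cnt_length (P : Pattern α) : cnt P P.length = numVar P := by
  rw [← card_firstPos]
  unfold cnt
  congr 1
  rw [filter_eq_self]
  intro j hj
  obtain ⟨x, hx, -⟩ := mem_firstPos.1 hj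
  by_contra h
  rw [List.getElem?_eq_none (by omega)] at hx
  exact absurd hx (by simp)

/-- the words which have the form of the first `t` symbols of `P`, continued by `a0` -/
def Wd (P : Pattern α) (a0 : α) (t : ℕ) (u : ℕ → α) : Prop :=
  (∀ j, t ≤ j → u j = a0) ∧ (∀ j b, j < t → P[j]? = some (Sum.inr b) → u j = b) ∧
  ∀ j j' x, j < t → j' < t → P[j]? = some (Sum.inl x) → P[j']? = some (Sum.inl x) → u j = u j'

theorem Wd.trunc {P : Pattern α} {a0 : α} {t : ℕ} {u : ℕ → α} (h : Wd P a0 (t + 1) u) :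
    Wd P a0 t (update u t a0) := by
  obtain ⟨h1, h2, h3⟩ := h
  refine ⟨?_, ?_, ?_⟩
  · intro j hj
    by_cases hjt : j = t
    · rw [hjt, update_self]
    · rw [update_of_ne hjt]
      exact h1 j (by omega)
  · intro j b hj hb
    rw [update_of_ne (by omega)]
    exact h2 j b (by omega) hb
  · intro j j' x hj hj' hx hx'
    rw [update_of_ne (by omega), update_of_ne (by omega)]
    exact h3 j j' x (by omega) (by omega) hx hx'

/-- a symbol which is not a first occurrence is determined by the symbols before it -/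
theorem Wd.det {P : Pattern α} {a0 : α} {t : ℕ} (ht : t < P.length) (htP : t ∉ firstPos P) {u u' : ℕ → α}
    (h : Wd P a0 (t + 1) u) (h' : Wd P a0 (t + 1) u') (he : update u t a0 = update u' t a0) : u = u' := by
  have hne : ∀ j, j ≠ t → u j = u' j := by
    intro j hj
    have := congrFun he j
    rwa [update_of_ne hj, update_of_ne hj] at this
  funext j
  by_cases hj : j = t
  · subst hj
    have hs : P[j]? = some P[j] := List.getElem?_eq_getElem ht
    cases hP : P[j] with
    | inr b =>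
      rw [hP] at hs
      rw [h.2.1 j b (by omega) hs, h'.2.1 j b (by omega) hs]
    | inl x =>
      rw [hP] at hs
      obtain ⟨a, ha, ha1, ha2⟩ := exists_firstPos hs
      have haj : a ≠ j := fun h5 => htP (h5 ▸ ha1)
      rw [h.2.2 j a x (by omega) (by omega) hs ha2, h'.2.2 j a x (by omega) (by omega) hs ha2]
      exact hne a haj
  · exact hne j hj

/-- the condition at position `j` for the path `c` -/
def Tst (P Q : Pattern α) (u : ℕ → α) (c : ℕ → ℕ) (j : ℕ) : Prop :=
  j ∉ firstPos Q → j + c j ∈ firstPos P →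
    (∀ b, Q[j]? = some (Sum.inr b) → u (j + c j) = b) ∧
    ∀ a, refPos Q j = some a → u (j + c j) = u (a + c a)

/-- a good path -/
def Gd (P Q : Pattern α) (i s : ℕ) (F : Finset ℕ) (u τ : ℕ → α) (c : ℕ → ℕ) : Prop :=
  Monotone c ∧ (∀ j, c j ≤ s) ∧ (∀ j < i, Tst P Q u c j) ∧ ∀ a ∈ F, u (a + c a) = τ a

theorem Gd.transfer {P Q : Pattern α} {i i' s s' : ℕ} {F F' : Finset ℕ} {u u' τ τ' : ℕ → α} {c c' : ℕ → ℕ}
    (h : Gd P Q i s F u τ c) (hi : i' ≤ i) (hc : Monotone c') (hb : ∀ j, c' j ≤ s') (hcc : ∀ j < i', c' j = c j)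
    (hu : ∀ j < i', u' (j + c j) = u (j + c j)) (hF : ∀ a ∈ F', u' (a + c' a) = τ' a) :
    Gd P Q i' s' F' u' τ' c' := by
  refine ⟨hc, hb, ?_, hF⟩
  intro j hj h1 h2
  rw [hcc j hj] at h2 ⊢
  obtain ⟨h3, h4⟩ := h.2.2.1 j (by omega) h1 h2
  rw [hu j hj]
  refine ⟨h3, ?_⟩
  intro a ha
  have haj := (refPos_spec ha).1
  rw [hcc a (by omega), hu a (by omega)]
  exact h4 a ha

/-- the pairs (word, values at the pending positions) with a good path -/
def S (P Q : Pattern α) (a0 : α) (i s : ℕ) (F : Finset ℕ) : Set ((ℕ → α) × (ℕ → α)) :=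
  {z | Wd P a0 (i + s) z.1 ∧ (∀ a, a ∉ F → z.2 a = a0) ∧ ∃ c, Gd P Q i s F z.1 z.2 c}

/-- the pairs with a good path of smaller shift -/
def Y (P Q : Pattern α) (a0 : α) (i s : ℕ) (F : Finset ℕ) : Set ((ℕ → α) × (ℕ → α)) :=
  {z | ∃ s', s = s' + 1 ∧ z ∈ S P Q a0 (i + 1) s' F}

theorem fin_supp [Finite α] (a0 : α) (X : Finset ℕ) : {u : ℕ → α | ∀ j, j ∉ X → u j = a0}.Finite := by
  refine Set.Finite.of_injOn (f := fun u => fun x : X => u x) (t := Set.univ) (fun _ _ => Set.mem_univ _) ?_ (Set.toFinite _)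
  intro u hu u' hu' h
  funext j
  by_cases hj : j ∈ X
  · exact congrFun h ⟨j, hj⟩
  · rw [hu j hj, hu' j hj]

theorem S_finite [Finite α] (P Q : Pattern α) (a0 : α) (i s : ℕ) (F : Finset ℕ) : (S P Q a0 i s F).Finite := by
  refine ((fin_supp a0 (range (i + s))).prod (fin_supp a0 F)).subset ?_
  rintro z ⟨h1, h2, -⟩
  refine ⟨fun j hj => h1.1 j ?_, h2⟩
  rw [mem_range] at hj
  omega

theorem Y_finite [Finite α] (P Q : Pattern α) (a0 : α) (i s : ℕ) (F : Finset ℕ) : (Y P Q a0 i s F).Finite := by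
  cases s with
  | zero =>
    refine (Set.finite_empty).subset ?_
    rintro z ⟨s', h, -⟩
    omega
  | succ s =>
    refine (S_finite P Q a0 (i + 1) s F).subset ?_
    rintro z ⟨s', h, hz⟩
    have : s' = s := by omega
    exact this ▸ hz

theorem count_skip [Fintype α] {A B Z : Set ((ℕ → α) × (ℕ → α))} (hA : A.Finite) (hB : B.Finite) (t : ℕ) (a0 : α)
    (l0 : (ℕ → α) × (ℕ → α) → α) (h2 : ∀ p ∈ B, (update p.1 t (l0 p), p.2) ∈ A)
    (h3 : ∀ z ∈ Z, z ∈ A ∨ (update z.1 t a0, z.2) ∈ B) :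
    Z.ncard ≤ A.ncard + (Fintype.card α - 1) * B.ncard := by
  classical
  set D : Set ((ℕ → α) × (ℕ → α)) := {z | (update z.1 t a0, z.2) ∈ B ∧ z.1 t ≠ l0 (update z.1 t a0, z.2)} with hD
  set T : Finset (((ℕ → α) × (ℕ → α)) × α) :=
    hB.toFinset.biUnion (fun y => ((univ : Finset α).erase (l0 y)).image (fun l => (y, l))) with hT
  have hDT : D.ncard ≤ T.card ∧ D.Finite := by
    have hm : ∀ z ∈ D, (((update z.1 t a0, z.2), z.1 t) : ((ℕ → α) × (ℕ → α)) × α) ∈ (T : Set (((ℕ → α) × (ℕ → α)) × α)) := by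
      rintro z ⟨h4, h5⟩
      rw [Finset.mem_coe, hT, mem_biUnion]
      refine ⟨_, hB.mem_toFinset.2 h4, ?_⟩
      rw [mem_image]
      exact ⟨z.1 t, mem_erase.2 ⟨h5, mem_univ _⟩, rfl⟩
    have hi : Set.InjOn (fun z : (ℕ → α) × (ℕ → α) => (((update z.1 t a0, z.2), z.1 t) : ((ℕ → α) × (ℕ → α)) × α)) D := by
      intro z _ z' _ h
      simp only [Prod.mk.injEq] at h
      obtain ⟨⟨h5, h6⟩, h7⟩ := h
      refine Prod.ext ?_ h6
      funext j
      by_cases hj : j = t
      · rw [hj]; exact h7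
      · have := congrFun h5 j
        rwa [update_of_ne hj, update_of_ne hj] at this
    constructor
    · have := Set.ncard_le_ncard_of_injOn _ hm hi (Finset.finite_toSet T)
      rwa [Set.ncard_coe_finset] at this
    · exact Set.Finite.of_injOn hm hi (Finset.finite_toSet T)
  have hTc : T.card ≤ (Fintype.card α - 1) * B.ncard := by
    rw [hT]
    refine card_biUnion_le.trans ?_
    have h4 : ∀ y ∈ hB.toFinset, (((univ : Finset α).erase (l0 y)).image (fun l => (y, l))).card ≤ Fintype.card α - 1 := by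
      intro y _
      refine card_image_le.trans ?_
      rw [card_erase_of_mem (mem_univ _), card_univ]
    refine (sum_le_card_nsmul _ _ _ h4).trans ?_
    rw [smul_eq_mul, Set.ncard_eq_toFinset_card B hB, mul_comm]
  have hZ : Z ⊆ A ∪ D := by
    intro z hz
    rcases h3 z hz with h4 | h4
    · exact Or.inl h4
    · by_cases h5 : z.1 t = l0 (update z.1 t a0, z.2)
      · left
        have h6 := h2 _ h4
        simp only at h6
        rw [← h5, update_idem, update_eq_self] at h6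
        exact h6
      · exact Or.inr ⟨h4, h5⟩
  calc Z.ncard ≤ (A ∪ D).ncard := Set.ncard_le_ncard hZ (hA.union hDT.2)
    _ ≤ A.ncard + D.ncard := Set.ncard_union_le _ _
    _ ≤ _ := Nat.add_le_add_left (hDT.1.trans hTc) _

theorem count_free [Fintype α] {A B : Set ((ℕ → α) × (ℕ → α))} (hB : B.Finite)
    (g : (ℕ → α) × (ℕ → α) → (ℕ → α) × (ℕ → α)) (h : (ℕ → α) × (ℕ → α) → α) (hm : ∀ z ∈ A, g z ∈ B)
    (hi : ∀ z ∈ A, ∀ z' ∈ A, g z = g z' → h z = h z' → z = z') : A.ncard ≤ Fintype.card α * B.ncard := by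
  have h1 := Set.ncard_le_ncard_of_injOn (s := A) (t := B ×ˢ (Set.univ : Set α)) (fun z => (g z, h z))
    (fun z hz => ⟨hm z hz, Set.mem_univ _⟩) (by
      intro z hz z' hz' he
      simp only [Prod.mk.injEq] at he
      exact hi z hz z' hz' he.1 he.2) (hB.prod (Set.toFinite _))
  rw [Set.ncard_prod, Set.ncard_univ, Nat.card_eq_fintype_card, mul_comm] at h1
  exact h1

theorem count_inj {A B : Set ((ℕ → α) × (ℕ → α))} (hB : B.Finite)
    (g : (ℕ → α) × (ℕ → α) → (ℕ → α) × (ℕ → α)) (hm : ∀ z ∈ A, g z ∈ B)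
    (hi : ∀ z ∈ A, ∀ z' ∈ A, g z = g z' → z = z') : A.ncard ≤ B.ncard :=
  Set.ncard_le_ncard_of_injOn g hm (fun z hz z' hz' h => hi z hz z' hz' h) hB

end Pool.Agent.IDQ
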