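import Mathlib
import Pool.Agent.IDQ.Defs

/-!
# IDQ (helper67): the recursion for the number of words with a good path
-/

set_option autoImplicit false

namespace Pool.Agent.IDQ

open Finset Pool.Agent.Helper92.IncDepth Function

variable {α : Type}

theorem Wd.upd {P : Pattern α} {a0 : α} {t : ℕ} {u : ℕ → α} (h : Wd P a0 t u) (l : α) :
    update (update u t l) t a0 = u := by
  rw [update_idem]
  funext j
  by_cases hj : j = t
  · rw [hj, update_self]
    exact (h.1 t le_rfl).symm
  · rw [update_of_ne hj]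

/-- a path of smaller shift at position `i` -/
theorem S.lower {P Q : Pattern α} {a0 : α} {i s : ℕ} {F : Finset ℕ} (hF : ∀ a ∈ F, a < i + 1)
    {z : (ℕ → α) × (ℕ → α)} (hW : Wd P a0 (i + 1 + s) z.1) (hτ : ∀ a, a ∉ F → z.2 a = a0) {c : ℕ → ℕ}
    (hc : Gd P Q (i + 1) s F z.1 z.2 c) (hne : c i ≠ s) : (update z.1 (i + s) a0, z.2) ∈ Y P Q a0 i s F := by
  have hlt : c i < s := lt_of_le_of_ne (hc.2.1 i) hne
  obtain ⟨s', rfl⟩ : ∃ s', s = s' + 1 := ⟨s - 1, by omega⟩
  have hW' : Wd P a0 (i + (s' + 1)) (update z.1 (i + (s' + 1)) a0) := by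
    apply Wd.trunc
    have e : i + (s' + 1) + 1 = i + 1 + (s' + 1) := by ring
    rw [e]
    exact hW
  refine ⟨s', rfl, ?_, hτ, fun j => c (min j i), ?_⟩
  · have e : i + 1 + s' = i + (s' + 1) := by ring
    rw [e]
    exact hW'
  · refine hc.transfer le_rfl ?_ ?_ ?_ ?_ ?_
    · intro a b hab
      exact hc.1 (min_le_min_right i hab)
    · intro j
      exact (hc.1 (min_le_right j i)).trans (by omega)
    · intro j hj
      rw [min_eq_left (by omega)]
    · intro j hj
      have h1 : c j ≤ c i := hc.1 (by omega)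
      change update z.1 (i + (s' + 1)) a0 (j + c j) = z.1 (j + c j)
      rw [update_of_ne (by omega)]
    · intro a ha
      have h1 := hF a ha
      have h2 : c a ≤ c i := hc.1 (by omega)
      rw [min_eq_left (by omega)]
      change update z.1 (i + (s' + 1)) a0 (a + c a) = z.2 a
      rw [update_of_ne (by omega)]
      exact hc.2.2.2 a ha

/-- restriction of a path to the positions before `i` -/
theorem Gd.restrict {P Q : Pattern α} {a0 : α} {i s s' : ℕ} {F F' : Finset ℕ} {u τ τ' : ℕ → α} {c : ℕ → ℕ}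
    (h : Gd P Q (i + 1) s' F u τ c) (hs : s' ≤ s) (hF' : ∀ a ∈ F', a < i ∧ u (a + c a) = τ' a) :
    Gd P Q i s F' (update u (i + s) a0) τ' c := by
  refine h.transfer (Nat.le_succ i) h.1 (fun j => (h.2.1 j).trans hs) (fun _ _ => rfl) ?_ ?_
  · intro j hj
    have := h.2.1 j
    rw [update_of_ne (by omega)]
  · intro a ha
    have := h.2.1 a
    have h2 := hF' a ha
    rw [update_of_ne (by omega)]
    exact h2.2

theorem S.restrict {P Q : Pattern α} {a0 : α} {i s : ℕ} {F F' : Finset ℕ} {z : (ℕ → α) × (ℕ → α)} {τ' : ℕ → α}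
    {c : ℕ → ℕ} (hW : Wd P a0 (i + 1 + s) z.1) (h : Gd P Q (i + 1) s F z.1 z.2 c)
    (hτ : ∀ a, a ∉ F' → τ' a = a0) (hF' : ∀ a ∈ F', a < i ∧ z.1 (a + c a) = τ' a) :
    (update z.1 (i + s) a0, τ') ∈ S P Q a0 i s F' := by
  refine ⟨?_, hτ, c, h.restrict le_rfl hF'⟩
  apply Wd.trunc
  have e : i + s + 1 = i + 1 + s := by ring
  rw [e]
  exact hW

theorem Y.restrict {P Q : Pattern α} {a0 : α} {i s : ℕ} {F : Finset ℕ} {z : (ℕ → α) × (ℕ → α)}
    (hz : z ∈ Y P Q a0 i s F) : Wd P a0 (i + s) z.1 ∧ (∀ a, a ∉ F → z.2 a = a0) ∧ ∃ c : ℕ → ℕ,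
      (∀ a ∈ F, z.1 (a + c a) = z.2 a) ∧ ∀ (F' : Finset ℕ) (τ' : ℕ → α), (∀ a, a ∉ F' → τ' a = a0) →
      (∀ a ∈ F', a < i ∧ z.1 (a + c a) = τ' a) → (z.1, τ') ∈ S P Q a0 i s F' := by
  obtain ⟨s', rfl, hW, hτ, c, hc⟩ := hz
  have e : i + 1 + s' = i + (s' + 1) := by ring
  rw [e] at hW
  refine ⟨hW, hτ, c, hc.2.2.2, ?_⟩
  intro F' τ' hτ' hF'
  refine ⟨hW, hτ', c, ?_⟩
  have h1 := hc.restrict (a0 := a0) (Nat.le_succ s') hF'
  have h2 : update z.1 (i + (s' + 1)) a0 = z.1 := by
    funext j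
    by_cases hj : j = i + (s' + 1)
    · rw [hj, update_self]
      exact (hW.1 _ le_rfl).symm
    · rw [update_of_ne hj]
  rw [h2] at h1
  exact h1

section

variable [Fintype α] (P Q : Pattern α) (a0 : α) (i s : ℕ) (F : Finset ℕ)

/-- the cell is free, the position is not pending -/
theorem step_free (hF : ∀ a ∈ F, a < i) :
    (S P Q a0 (i + 1) s F).ncard ≤ Fintype.card α * (S P Q a0 i s F).ncard := by
  refine count_free (S_finite P Q a0 i s F) (fun z => (update z.1 (i + s) a0, z.2)) (fun z => z.1 (i + s)) ?_ ?_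
  · rintro z ⟨hW, hτ, c, hc⟩
    exact S.restrict hW hc hτ (fun a ha => ⟨hF a ha, hc.2.2.2 a ha⟩)
  · intro z _ z' _ h h'
    simp only [Prod.mk.injEq] at h
    refine Prod.ext ?_ h.2
    funext j
    by_cases hj : j = i + s
    · rw [hj]
      exact h'
    · have := congrFun h.1 j
      rwa [update_of_ne hj, update_of_ne hj] at this

/-- the cell is not free, the position is not pending -/
theorem step_det (hF : ∀ a ∈ F, a < i) (ht : i + s < P.length) (htP : i + s ∉ firstPos P) :
    (S P Q a0 (i + 1) s F).ncard ≤ (S P Q a0 i s F).ncard := by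
  refine count_inj (S_finite P Q a0 i s F) (fun z => (update z.1 (i + s) a0, z.2)) ?_ ?_
  · rintro z ⟨hW, hτ, c, hc⟩
    exact S.restrict hW hc hτ (fun a ha => ⟨hF a ha, hc.2.2.2 a ha⟩)
  · rintro z ⟨hW, -⟩ z' ⟨hW', -⟩ h
    simp only [Prod.mk.injEq] at h
    have e : i + 1 + s = i + s + 1 := by ring
    rw [e] at hW hW'
    exact Prod.ext (Wd.det ht htP hW hW' h.1) h.2

/-- a test with known letter -/
theorem step_known (hF : ∀ a ∈ F, a < i) (ρ : (ℕ → α) → α)
    (hρ : ∀ (u τ : ℕ → α) (c : ℕ → ℕ), (∀ a ∈ F, u (a + c a) = τ a) → Tst P Q u c i → c i = s → u (i + s) = ρ τ) :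
    (S P Q a0 (i + 1) s F).ncard ≤ (S P Q a0 i s F).ncard + (Fintype.card α - 1) * (Y P Q a0 i s F).ncard := by
  set A : Set ((ℕ → α) × (ℕ → α)) := {z | (update z.1 (i + s) a0, z.2) ∈ S P Q a0 i s F ∧ z.1 (i + s) = ρ z.2} with hA
  have hm : ∀ z ∈ A, (update z.1 (i + s) a0, z.2) ∈ S P Q a0 i s F := fun z hz => hz.1
  have hi : ∀ z ∈ A, ∀ z' ∈ A, (update z.1 (i + s) a0, z.2) = (update z'.1 (i + s) a0, z'.2) → z = z' := by
    rintro z ⟨-, h1⟩ z' ⟨-, h1'⟩ h
    simp only [Prod.mk.injEq] at h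
    refine Prod.ext ?_ h.2
    funext j
    by_cases hj : j = i + s
    · rw [hj, h1, h1', h.2]
    · have := congrFun h.1 j
      rwa [update_of_ne hj, update_of_ne hj] at this
  have hAfin : A.Finite := Set.Finite.of_injOn (f := fun z => (update z.1 (i + s) a0, z.2)) (fun z hz => hm z hz)
    (fun z hz z' hz' h => hi z hz z' hz' h) (S_finite P Q a0 i s F)
  have hAc : A.ncard ≤ (S P Q a0 i s F).ncard :=
    count_inj (S_finite P Q a0 i s F) (fun z => (update z.1 (i + s) a0, z.2)) hm hi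
  refine (count_skip hAfin (Y_finite P Q a0 i s F) (i + s) a0 (fun y => ρ y.2) ?_ ?_).trans
    (Nat.add_le_add_right hAc _)
  · intro y hy
    obtain ⟨hW, hτ, c, hp, hr⟩ := Y.restrict hy
    refine ⟨?_, ?_⟩
    · simp only
      rw [hW.upd]
      exact hr F y.2 hτ (fun a ha => ⟨hF a ha, hp a ha⟩)
    · simp only [update_self]
  · rintro z ⟨hW, hτ, c, hc⟩
    by_cases h : c i = s
    · left
      exact ⟨S.restrict hW hc hτ (fun a ha => ⟨hF a ha, hc.2.2.2 a ha⟩),
        hρ z.1 z.2 c hc.2.2.2 (hc.2.2.1 i (Nat.lt_succ_self i)) h⟩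
    · right
      exact S.lower (fun a ha => (hF a ha).trans (Nat.lt_succ_self i)) hW hτ hc h

/-- a test of a new variable -/
theorem step_new (hF : ∀ a ∈ F, a < i) (hiQ : i ∉ firstPos Q) (htP : i + s ∈ firstPos P) {b : ℕ}
    (hb : refPos Q i = some b) (hbF : b ∉ F) :
    (S P Q a0 (i + 1) s F).ncard ≤ (S P Q a0 i s (insert b F)).ncard +
      (Fintype.card α - 1) * (Y P Q a0 i s F).ncard := by
  have hbi := (refPos_spec hb).1
  set A : Set ((ℕ → α) × (ℕ → α)) := {z | (update z.1 (i + s) a0, update z.2 b (z.1 (i + s))) ∈ S P Q a0 i s (insert b F) ∧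
    z.2 b = a0} with hA
  have hm : ∀ z ∈ A, (update z.1 (i + s) a0, update z.2 b (z.1 (i + s))) ∈ S P Q a0 i s (insert b F) := fun z hz => hz.1
  have hi : ∀ z ∈ A, ∀ z' ∈ A, (update z.1 (i + s) a0, update z.2 b (z.1 (i + s))) =
      (update z'.1 (i + s) a0, update z'.2 b (z'.1 (i + s))) → z = z' := by
    rintro z ⟨-, h1⟩ z' ⟨-, h1'⟩ h
    simp only [Prod.mk.injEq] at h
    have h5 : z.1 (i + s) = z'.1 (i + s) := by
      have := congrFun h.2 b
      rwa [update_self, update_self] at this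
    refine Prod.ext ?_ ?_
    · funext j
      by_cases hj : j = i + s
      · rw [hj]
        exact h5
      · have := congrFun h.1 j
        rwa [update_of_ne hj, update_of_ne hj] at this
    · funext j
      by_cases hj : j = b
      · rw [hj, h1, h1']
      · have := congrFun h.2 j
        rwa [update_of_ne hj, update_of_ne hj] at this
  have hAfin : A.Finite := Set.Finite.of_injOn (f := fun z => (update z.1 (i + s) a0, update z.2 b (z.1 (i + s))))
    (fun z hz => hm z hz) (fun z hz z' hz' h => hi z hz z' hz' h) (S_finite P Q a0 i s (insert b F))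
  have hAc : A.ncard ≤ (S P Q a0 i s (insert b F)).ncard :=
    count_inj (S_finite P Q a0 i s (insert b F)) (fun z => (update z.1 (i + s) a0, update z.2 b (z.1 (i + s)))) hm hi
  have hl : ∀ y : (ℕ → α) × (ℕ → α), ∃ l : α, y ∈ Y P Q a0 i s F → (y.1, update y.2 b l) ∈ S P Q a0 i s (insert b F) := by
    intro y
    by_cases hy : y ∈ Y P Q a0 i s F
    · obtain ⟨hW, hτ, c, hp, hr⟩ := Y.restrict hy
      refine ⟨y.1 (b + c b), fun _ => hr _ _ ?_ ?_⟩
      · intro a ha
        rw [mem_insert, not_or] at ha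
        rw [update_of_ne ha.1]
        exact hτ a ha.2
      · intro a ha
        by_cases hab : a = b
        · rw [hab, update_self]
          exact ⟨hbi, rfl⟩
        · rw [update_of_ne hab]
          have haF : a ∈ F := by
            rcases mem_insert.1 ha with h | h
            · exact absurd h hab
            · exact h
          exact ⟨hF a haF, hp a haF⟩
    · exact ⟨a0, fun h => absurd h hy⟩
  choose l0 hl0 using hl
  refine (count_skip hAfin (Y_finite P Q a0 i s F) (i + s) a0 l0 ?_ ?_).trans (Nat.add_le_add_right hAc _)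
  · intro y hy
    obtain ⟨hW, hτ, -⟩ := Y.restrict hy
    refine ⟨?_, hτ b hbF⟩
    simp only [update_self]
    rw [hW.upd]
    exact hl0 y hy
  · rintro z ⟨hW, hτ, c, hc⟩
    by_cases h : c i = s
    · left
      refine ⟨S.restrict hW hc ?_ ?_, hτ b hbF⟩
      · intro a ha
        rw [mem_insert, not_or] at ha
        rw [update_of_ne ha.1]
        exact hτ a ha.2
      · intro a ha
        by_cases hab : a = b
        · rw [hab, update_self]
          refine ⟨hbi, ?_⟩
          have h1 := (hc.2.2.1 i (Nat.lt_succ_self i) hiQ (by rw [h]; exact htP)).2 b hb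
          rw [h] at h1
          exact h1.symm
        · rw [update_of_ne hab]
          have haF : a ∈ F := by
            rcases mem_insert.1 ha with h | h
            · exact absurd h hab
            · exact h
          exact ⟨hF a haF, hc.2.2.2 a haF⟩
    · right
      exact S.lower (fun a ha => (hF a ha).trans (Nat.lt_succ_self i)) hW hτ hc h

/-- a pending position at a free cell -/
theorem step_pend (hF : ∀ a ∈ F, a < i + 1) (hiF : i ∈ F) :
    (S P Q a0 (i + 1) s F).ncard ≤ Fintype.card α * (S P Q a0 i s (F.erase i)).ncard +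
      (Fintype.card α - 1) * (Y P Q a0 i s F).ncard := by
  have hFe : ∀ a ∈ F.erase i, a < i ∧ a ∈ F := by
    intro a ha
    rw [mem_erase] at ha
    have := hF a ha.2
    exact ⟨by omega, ha.2⟩
  set A : Set ((ℕ → α) × (ℕ → α)) := {z | (update z.1 (i + s) a0, update z.2 i a0) ∈ S P Q a0 i s (F.erase i) ∧
    z.1 (i + s) = z.2 i} with hA
  have hm : ∀ z ∈ A, (update z.1 (i + s) a0, update z.2 i a0) ∈ S P Q a0 i s (F.erase i) := fun z hz => hz.1
  have hi : ∀ z ∈ A, ∀ z' ∈ A, (update z.1 (i + s) a0, update z.2 i a0) =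
      (update z'.1 (i + s) a0, update z'.2 i a0) → z.2 i = z'.2 i → z = z' := by
    rintro z ⟨-, h1⟩ z' ⟨-, h1'⟩ h h'
    simp only [Prod.mk.injEq] at h
    refine Prod.ext ?_ ?_
    · funext j
      by_cases hj : j = i + s
      · rw [hj, h1, h1', h']
      · have := congrFun h.1 j
        rwa [update_of_ne hj, update_of_ne hj] at this
    · funext j
      by_cases hj : j = i
      · rw [hj]
        exact h'
      · have := congrFun h.2 j
        rwa [update_of_ne hj, update_of_ne hj] at this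
  have hAfin : A.Finite := by
    refine Set.Finite.of_injOn (f := fun z => (((update z.1 (i + s) a0, update z.2 i a0), z.2 i) : ((ℕ → α) × (ℕ → α)) × α))
      (t := (S P Q a0 i s (F.erase i)) ×ˢ (Set.univ : Set α)) (fun z hz => ⟨hm z hz, Set.mem_univ _⟩) ?_
      ((S_finite P Q a0 i s (F.erase i)).prod (Set.toFinite _))
    intro z hz z' hz' h
    simp only [Prod.mk.injEq] at h
    exact hi z hz z' hz' (Prod.ext h.1.1 h.1.2) h.2
  have hAc : A.ncard ≤ Fintype.card α * (S P Q a0 i s (F.erase i)).ncard :=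
    count_free (S_finite P Q a0 i s (F.erase i)) (fun z => (update z.1 (i + s) a0, update z.2 i a0)) (fun z => z.2 i) hm hi
  refine (count_skip hAfin (Y_finite P Q a0 i s F) (i + s) a0 (fun y => y.2 i) ?_ ?_).trans
    (Nat.add_le_add_right hAc _)
  · intro y hy
    obtain ⟨hW, hτ, c, hp, hr⟩ := Y.restrict hy
    refine ⟨?_, ?_⟩
    · simp only
      rw [hW.upd]
      refine hr _ _ ?_ ?_
      · intro a ha
        by_cases hai : a = i
        · rw [hai, update_self]
        · rw [update_of_ne hai]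
          exact hτ a (fun h => ha (mem_erase.2 ⟨hai, h⟩))
      · intro a ha
        obtain ⟨h1, h2⟩ := hFe a ha
        rw [update_of_ne (by omega)]
        exact ⟨h1, hp a h2⟩
    · simp only [update_self]
  · rintro z ⟨hW, hτ, c, hc⟩
    by_cases h : c i = s
    · left
      refine ⟨S.restrict hW hc ?_ ?_, ?_⟩
      · intro a ha
        by_cases hai : a = i
        · rw [hai, update_self]
        · rw [update_of_ne hai]
          exact hτ a (fun h => ha (mem_erase.2 ⟨hai, h⟩))
      · intro a ha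
        obtain ⟨h1, h2⟩ := hFe a ha
        rw [update_of_ne (by omega)]
        exact ⟨h1, hc.2.2.2 a h2⟩
      · have h1 := hc.2.2.2 i hiF
        rw [h] at h1
        exact h1
    · right
      exact S.lower hF hW hτ hc h

/-- a pending position at a cell which is not free -/
theorem step_pend_det (hF : ∀ a ∈ F, a < i + 1) (hiF : i ∈ F) (ht : i + s < P.length) (htP : i + s ∉ firstPos P) :
    (S P Q a0 (i + 1) s F).ncard ≤ (S P Q a0 i s (F.erase i)).ncard + (Y P Q a0 i s F).ncard := by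
  have hFe : ∀ a ∈ F.erase i, a < i ∧ a ∈ F := by
    intro a ha
    rw [mem_erase] at ha
    have := hF a ha.2
    exact ⟨by omega, ha.2⟩
  have e : i + 1 + s = i + s + 1 := by ring
  set Z1 : Set ((ℕ → α) × (ℕ → α)) := {z | Wd P a0 (i + 1 + s) z.1 ∧
    (update z.1 (i + s) a0, update z.2 i a0) ∈ S P Q a0 i s (F.erase i) ∧ z.1 (i + s) = z.2 i} with hZ1
  set Z2 : Set ((ℕ → α) × (ℕ → α)) := {z | Wd P a0 (i + 1 + s) z.1 ∧
    (update z.1 (i + s) a0, z.2) ∈ Y P Q a0 i s F} with hZ2
  have hi1 : ∀ z ∈ Z1, ∀ z' ∈ Z1, (update z.1 (i + s) a0, update z.2 i a0) =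
      (update z'.1 (i + s) a0, update z'.2 i a0) → z = z' := by
    rintro z ⟨hW, -, h1⟩ z' ⟨hW', -, h1'⟩ h
    simp only [Prod.mk.injEq] at h
    rw [e] at hW hW'
    have h5 := Wd.det ht htP hW hW' h.1
    refine Prod.ext h5 ?_
    funext j
    by_cases hj : j = i
    · rw [hj, ← h1, ← h1', h5]
    · have := congrFun h.2 j
      rwa [update_of_ne hj, update_of_ne hj] at this
  have hi2 : ∀ z ∈ Z2, ∀ z' ∈ Z2, (update z.1 (i + s) a0, z.2) = (update z'.1 (i + s) a0, z'.2) → z = z' := by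
    rintro z ⟨hW, -⟩ z' ⟨hW', -⟩ h
    simp only [Prod.mk.injEq] at h
    rw [e] at hW hW'
    exact Prod.ext (Wd.det ht htP hW hW' h.1) h.2
  have hf1 : Z1.Finite := Set.Finite.of_injOn (f := fun z => (update z.1 (i + s) a0, update z.2 i a0))
    (fun z hz => hz.2.1) (fun z hz z' hz' h => hi1 z hz z' hz' h) (S_finite P Q a0 i s (F.erase i))
  have hf2 : Z2.Finite := Set.Finite.of_injOn (f := fun z => (update z.1 (i + s) a0, z.2))
    (fun z hz => hz.2) (fun z hz z' hz' h => hi2 z hz z' hz' h) (Y_finite P Q a0 i s F)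
  have hc1 : Z1.ncard ≤ (S P Q a0 i s (F.erase i)).ncard :=
    count_inj (S_finite P Q a0 i s (F.erase i)) (fun z => (update z.1 (i + s) a0, update z.2 i a0)) (fun z hz => hz.2.1) hi1
  have hc2 : Z2.ncard ≤ (Y P Q a0 i s F).ncard :=
    count_inj (Y_finite P Q a0 i s F) (fun z => (update z.1 (i + s) a0, z.2)) (fun z hz => hz.2) hi2
  have hsub : S P Q a0 (i + 1) s F ⊆ Z1 ∪ Z2 := by
    rintro z ⟨hW, hτ, c, hc⟩
    by_cases h : c i = s
    · left
      refine ⟨hW, S.restrict hW hc ?_ ?_, ?_⟩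
      · intro a ha
        by_cases hai : a = i
        · rw [hai, update_self]
        · rw [update_of_ne hai]
          exact hτ a (fun h => ha (mem_erase.2 ⟨hai, h⟩))
      · intro a ha
        obtain ⟨h1, h2⟩ := hFe a ha
        rw [update_of_ne (by omega)]
        exact ⟨h1, hc.2.2.2 a h2⟩
      · have h1 := hc.2.2.2 i hiF
        rw [h] at h1
        exact h1
    · right
      exact ⟨hW, S.lower hF hW hτ hc h⟩
  calc (S P Q a0 (i + 1) s F).ncard ≤ (Z1 ∪ Z2).ncard := Set.ncard_le_ncard hsub (hf1.union hf2)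
    _ ≤ Z1.ncard + Z2.ncard := Set.ncard_union_le _ _
    _ ≤ _ := Nat.add_le_add hc1 hc2

end

end Pool.Agent.IDQ
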