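import Mathlib
import Pool.Agent.IDQ.Step

/-!
# IDQ (helper67): the bound for the number of variables of a pattern with a smaller language
-/

set_option autoImplicit false

namespace Pool.Agent.IDQ

open Finset Pool.Agent.Helper92.IncDepth Function

variable {α : Type}

/-- conditions for the parameters of the potential function -/
structure Par (k : ℕ) (ν κ μ : ℝ) : Prop where
  one_le_nu : 1 ≤ ν
  one_le_mu : 1 ≤ μ
  mu_le : μ ≤ κ
  h2 : ν * κ + (k - 1) ≤ ν ^ 2 * κ
  h3 : (k : ℝ) ≤ ν ^ 2 * μ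
  h4 : κ + ν * μ ≤ ν * μ * κ

/-- the potential function -/
noncomputable def pot (ν κ μ : ℝ) (m e s v : ℕ) : ℝ := ν ^ (2 * m + e) * κ ^ s * μ ^ v

theorem pot_pos {k : ℕ} {ν κ μ : ℝ} (h : Par k ν κ μ) (m e s v : ℕ) : 0 < pot ν κ μ m e s v := by
  have h1 := h.one_le_nu
  have h2 := h.one_le_mu
  have h3 := h.mu_le
  unfold pot
  have : 0 < ν := by linarith
  have : 0 < μ := by linarith
  have : 0 < κ := by linarith
  positivity

theorem pot_e (ν κ μ : ℝ) (m e s v : ℕ) : pot ν κ μ m (e + 1) s v = ν * pot ν κ μ m e s v := by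
  unfold pot
  ring

theorem pot_m (ν κ μ : ℝ) (m e s v : ℕ) : pot ν κ μ (m + 1) e s v = ν ^ 2 * pot ν κ μ m e s v := by
  unfold pot
  ring

theorem pot_s (ν κ μ : ℝ) (m e s v : ℕ) : pot ν κ μ m e (s + 1) v = κ * pot ν κ μ m e s v := by
  unfold pot
  ring

theorem pot_v (ν κ μ : ℝ) (m e s v : ℕ) : pot ν κ μ m e s (v + 1) = μ * pot ν κ μ m e s v := by
  unfold pot
  ring

/-- the bound for the smaller shift -/
theorem Y_bound (P Q : Pattern α) (a0 : α) {k : ℕ} {ν κ μ : ℝ} (h : Par k ν κ μ) (i s : ℕ) (F : Finset ℕ) (e m v : ℕ)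
    (hS : ∀ s', s = s' + 1 → ((S P Q a0 (i + 1) s' F).ncard : ℝ) ≤ pot ν κ μ m e s' v) :
    κ * ((Y P Q a0 i s F).ncard : ℝ) ≤ pot ν κ μ m e s v := by
  have hκ : 0 ≤ κ := by
    have h1 := h.one_le_mu
    have h3 := h.mu_le
    linarith
  cases s with
  | zero =>
    have h1 : Y P Q a0 i 0 F = ∅ := by
      apply Set.eq_empty_of_forall_notMem
      rintro z ⟨s', hs, -⟩
      omega
    rw [h1, Set.ncard_empty, Nat.cast_zero, mul_zero]
    exact (pot_pos h m e 0 v).le
  | succ s =>
    have h1 : Y P Q a0 i (s + 1) F = S P Q a0 (i + 1) s F := by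
      ext z
      constructor
      · rintro ⟨s', hs, hz⟩
        have : s' = s := by omega
        exact this ▸ hz
      · intro hz
        exact ⟨s, rfl, hz⟩
    rw [h1, pot_s]
    exact mul_le_mul_of_nonneg_left (hS s rfl) hκ

/-- the empty path -/
theorem base_bound [Fintype α] [Nonempty α] (P Q : Pattern α) (a0 : α) {ν κ μ : ℝ} (h : Par (Fintype.card α) ν κ μ) (s : ℕ) (hs : s ≤ P.length) :
    ((S P Q a0 0 s ∅).ncard : ℝ) ≤ pot ν κ μ (cnt P s) 0 s 0 := by
  have h1 := h.one_le_nu
  have h2 := h.one_le_mu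
  have h3 := h.mu_le
  have hk := h.h3
  have hsub : ∀ s, ∀ z ∈ S P Q a0 0 (s + 1) ∅, (update z.1 s a0, z.2) ∈ S P Q a0 0 s ∅ := by
    rintro s z ⟨hW, hτ, -⟩
    refine ⟨?_, hτ, fun _ => 0, ?_⟩
    · rw [Nat.zero_add] at hW ⊢
      exact hW.trunc
    · exact ⟨fun _ _ _ => le_rfl, fun _ => Nat.zero_le _, fun j hj => absurd hj (Nat.not_lt_zero j), by simp⟩
  induction s with
  | zero =>
    have h5 : (S P Q a0 0 0 ∅).ncard ≤ 1 := by
      rw [Set.ncard_le_one (S_finite P Q a0 0 0 ∅)]
      rintro z ⟨hW, hτ, -⟩ z' ⟨hW', hτ', -⟩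
      refine Prod.ext ?_ ?_
      · funext j
        rw [hW.1 j (by omega), hW'.1 j (by omega)]
      · funext j
        rw [hτ j (by simp), hτ' j (by simp)]
    rw [cnt_zero]
    unfold pot
    simp only [mul_zero, add_zero, pow_zero, mul_one]
    exact_mod_cast h5
  | succ s ih =>
    have ih' := ih (by omega)
    rw [pot_s]
    have hpos := pot_pos h (cnt P s) 0 s 0
    by_cases hsP : s ∈ firstPos P
    · rw [cnt_succ_mem hsP, pot_m]
      have h5 : (S P Q a0 0 (s + 1) ∅).ncard ≤ Fintype.card α * (S P Q a0 0 s ∅).ncard := by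
        refine count_free (S_finite P Q a0 0 s ∅) (fun z => (update z.1 s a0, z.2)) (fun z => z.1 s) (hsub s) ?_
        intro z _ z' _ h h'
        simp only [Prod.mk.injEq] at h
        refine Prod.ext ?_ h.2
        funext j
        by_cases hj : j = s
        · rw [hj]
          exact h'
        · have := congrFun h.1 j
          rwa [update_of_ne hj, update_of_ne hj] at this
      have h6 : ((S P Q a0 0 (s + 1) ∅).ncard : ℝ) ≤ Fintype.card α * (S P Q a0 0 s ∅).ncard := by exact_mod_cast h5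
      have h7 : (Fintype.card α : ℝ) * (S P Q a0 0 s ∅).ncard ≤ (ν ^ 2 * μ) * pot ν κ μ (cnt P s) 0 s 0 :=
        mul_le_mul hk ih' (Nat.cast_nonneg _) (by positivity)
      have h8 : (ν ^ 2 * μ) * pot ν κ μ (cnt P s) 0 s 0 ≤ (ν ^ 2 * κ) * pot ν κ μ (cnt P s) 0 s 0 :=
        mul_le_mul_of_nonneg_right (mul_le_mul_of_nonneg_left h3 (by positivity)) hpos.le
      linarith
    · rw [cnt_succ_notMem hsP]
      have h5 : (S P Q a0 0 (s + 1) ∅).ncard ≤ (S P Q a0 0 s ∅).ncard := by
        refine count_inj (S_finite P Q a0 0 s ∅) (fun z => (update z.1 s a0, z.2)) (hsub s) ?_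
        rintro z ⟨hW, -⟩ z' ⟨hW', -⟩ h
        simp only [Prod.mk.injEq] at h
        rw [Nat.zero_add] at hW hW'
        exact Prod.ext (Wd.det (by omega) hsP hW hW' h.1) h.2
      have h6 : ((S P Q a0 0 (s + 1) ∅).ncard : ℝ) ≤ (S P Q a0 0 s ∅).ncard := by exact_mod_cast h5
      have h7 : 1 * pot ν κ μ (cnt P s) 0 s 0 ≤ κ * pot ν κ μ (cnt P s) 0 s 0 :=
        mul_le_mul_of_nonneg_right (by linarith) hpos.le
      linarith

/-- one step of the induction -/
theorem S_step [Fintype α] [Nonempty α] (P Q : Pattern α) (a0 : α) {ν κ μ : ℝ} (h : Par (Fintype.card α) ν κ μ) (d : ℕ)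
    (hlen : P.length = Q.length + d) (i : ℕ) (hi : i < Q.length) (s : ℕ) (hs : s ≤ d) (F : Finset ℕ)
    (hF : ∀ a ∈ F, a < i + 1) (hFQ : F ⊆ firstPos Q)
    (hA : ∀ s ≤ d, ∀ F : Finset ℕ, (∀ a ∈ F, a < i) → F ⊆ firstPos Q →
      ((S P Q a0 i s F).ncard : ℝ) ≤ pot ν κ μ (cnt P (i + s)) F.card s (cnt Q i))
    (hB : ∀ s', s = s' + 1 → ((S P Q a0 (i + 1) s' F).ncard : ℝ) ≤
      pot ν κ μ (cnt P (i + 1 + s')) F.card s' (cnt Q (i + 1))) :
    ((S P Q a0 (i + 1) s F).ncard : ℝ) ≤ pot ν κ μ (cnt P (i + 1 + s)) F.card s (cnt Q (i + 1)) := by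
  have hk1 : (1 : ℝ) ≤ Fintype.card α := by exact_mod_cast Fintype.card_pos
  have hcast : ((Fintype.card α - 1 : ℕ) : ℝ) = (Fintype.card α : ℝ) - 1 := by
    rw [Nat.cast_sub Fintype.card_pos, Nat.cast_one]
  have g1 := h.one_le_nu
  have g2 := h.one_le_mu
  have g3 := h.mu_le
  have g4 := h.h2
  have g5 := h.h3
  have g6 := h.h4
  have gν : 0 < ν := by linarith
  have gμ : 0 < μ := by linarith
  have gκ : 0 < κ := by linarith
  have ht : i + s < P.length := by omega
  have e1 : i + 1 + s = i + s + 1 := by ring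
  have hY : κ * ((Y P Q a0 i s F).ncard : ℝ) ≤ pot ν κ μ (cnt P (i + s)) F.card s (cnt Q (i + 1)) := by
    refine Y_bound P Q a0 h i s F _ _ _ ?_
    intro s' hs'
    have e2 : i + 1 + s' = i + s := by omega
    rw [← e2]
    exact hB s' hs'
  rw [e1]
  generalize hm : cnt P (i + s) = m at hY ⊢
  by_cases hiF : i ∈ F
  · have hiQ := hFQ hiF
    rw [cnt_succ_mem hiQ] at hY ⊢
    have hcard : F.card = (F.erase i).card + 1 := by
      rw [card_erase_of_mem hiF]
      have := card_pos.2 ⟨i, hiF⟩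
      omega
    have hN1 := hA s hs (F.erase i) (fun a ha => by
      rw [mem_erase] at ha
      have := hF a ha.2
      omega) ((erase_subset i F).trans hFQ)
    rw [hm] at hN1
    rw [hcard] at hY ⊢
    generalize (F.erase i).card = e at hN1 hY ⊢
    generalize cnt Q i = v at hN1 hY ⊢
    rw [pot_e, pot_v] at hY
    have hX := pot_pos h m e s v
    by_cases htP : i + s ∈ firstPos P
    · rw [cnt_succ_mem htP, hm, pot_m, pot_e, pot_v]
      have hZ := step_pend P Q a0 i s F hF hiF
      have hZ' : ((S P Q a0 (i + 1) s F).ncard : ℝ) ≤ Fintype.card α * (S P Q a0 i s (F.erase i)).ncard +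
          ((Fintype.card α : ℝ) - 1) * (Y P Q a0 i s F).ncard := by
        rw [← hcast]
        exact_mod_cast hZ
      generalize ((S P Q a0 (i + 1) s F).ncard : ℝ) = Z at hZ' ⊢
      generalize ((S P Q a0 i s (F.erase i)).ncard : ℝ) = N1 at hZ' hN1
      generalize ((Y P Q a0 i s F).ncard : ℝ) = N2 at hZ' hY
      generalize pot ν κ μ m e s v = X at hN1 hY hX ⊢
      generalize (Fintype.card α : ℝ) = k at *
      refine le_of_mul_le_mul_left ?_ gκ
      have a1 : κ * (k * N1) ≤ κ * (ν ^ 2 * μ * X) := by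
        refine mul_le_mul_of_nonneg_left ?_ gκ.le
        calc k * N1 ≤ k * X := mul_le_mul_of_nonneg_left hN1 (by linarith)
          _ ≤ ν ^ 2 * μ * X := mul_le_mul_of_nonneg_right g5 hX.le
      have a2 : (k - 1) * (κ * N2) ≤ (k - 1) * (ν * (μ * X)) := mul_le_mul_of_nonneg_left hY (by linarith)
      have a3 : (ν * κ + (k - 1)) * (ν * (μ * X)) ≤ ν ^ 2 * κ * (ν * (μ * X)) :=
        mul_le_mul_of_nonneg_right g4 (by positivity)
      calc κ * Z ≤ κ * (k * N1 + (k - 1) * N2) := mul_le_mul_of_nonneg_left hZ' gκ.le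
        _ = κ * (k * N1) + (k - 1) * (κ * N2) := by ring
        _ ≤ κ * (ν ^ 2 * μ * X) + (k - 1) * (ν * (μ * X)) := add_le_add a1 a2
        _ = (ν * κ + (k - 1)) * (ν * (μ * X)) := by ring
        _ ≤ ν ^ 2 * κ * (ν * (μ * X)) := a3
        _ = κ * (ν ^ 2 * (ν * (μ * X))) := by ring
    · rw [cnt_succ_notMem htP, hm, pot_e, pot_v]
      have hZ := step_pend_det P Q a0 i s F hF hiF ht htP
      have hZ' : ((S P Q a0 (i + 1) s F).ncard : ℝ) ≤ (S P Q a0 i s (F.erase i)).ncard + (Y P Q a0 i s F).ncard := by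
        exact_mod_cast hZ
      generalize ((S P Q a0 (i + 1) s F).ncard : ℝ) = Z at hZ' ⊢
      generalize ((S P Q a0 i s (F.erase i)).ncard : ℝ) = N1 at hZ' hN1
      generalize ((Y P Q a0 i s F).ncard : ℝ) = N2 at hZ' hY
      generalize pot ν κ μ m e s v = X at hN1 hY hX ⊢
      refine le_of_mul_le_mul_left ?_ gκ
      calc κ * Z ≤ κ * (N1 + N2) := mul_le_mul_of_nonneg_left hZ' gκ.le
        _ = κ * N1 + κ * N2 := by ring
        _ ≤ κ * X + ν * (μ * X) := add_le_add (mul_le_mul_of_nonneg_left hN1 gκ.le) hY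
        _ = (κ + ν * μ) * X := by ring
        _ ≤ (ν * μ * κ) * X := mul_le_mul_of_nonneg_right g6 hX.le
        _ = κ * (ν * (μ * X)) := by ring
  · have hF' : ∀ a ∈ F, a < i := by
      intro a ha
      have h1 := hF a ha
      have h2 : a ≠ i := fun h3 => hiF (h3 ▸ ha)
      omega
    have hN := hA s hs F hF' hFQ
    rw [hm] at hN
    have hX := pot_pos h m F.card s (cnt Q i)
    by_cases hiQ : i ∈ firstPos Q
    · rw [cnt_succ_mem hiQ] at hY ⊢
      by_cases htP : i + s ∈ firstPos P
      · rw [cnt_succ_mem htP, hm, pot_m, pot_v]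
        have hZ := step_free P Q a0 i s F hF'
        have hZ' : ((S P Q a0 (i + 1) s F).ncard : ℝ) ≤ Fintype.card α * (S P Q a0 i s F).ncard := by
          exact_mod_cast hZ
        calc ((S P Q a0 (i + 1) s F).ncard : ℝ) ≤ Fintype.card α * (S P Q a0 i s F).ncard := hZ'
          _ ≤ (ν ^ 2 * μ) * pot ν κ μ m F.card s (cnt Q i) := mul_le_mul g5 hN (Nat.cast_nonneg _) (by positivity)
          _ = _ := by ring
      · rw [cnt_succ_notMem htP, hm, pot_v]
        have hZ := step_det P Q a0 i s F hF' ht htP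
        have hZ' : ((S P Q a0 (i + 1) s F).ncard : ℝ) ≤ (S P Q a0 i s F).ncard := by
          exact_mod_cast hZ
        have h9 : 1 * pot ν κ μ m F.card s (cnt Q i) ≤ μ * pot ν κ μ m F.card s (cnt Q i) :=
          mul_le_mul_of_nonneg_right g2 hX.le
        linarith
    · rw [cnt_succ_notMem hiQ] at hY ⊢
      by_cases htP : i + s ∈ firstPos P
      · rw [cnt_succ_mem htP, hm, pot_m]
        have key : ∀ N1 N2 X : ℝ, N1 ≤ ν * X → κ * N2 ≤ X → 0 < X →
            N1 + ((Fintype.card α : ℝ) - 1) * N2 ≤ ν ^ 2 * X := by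
          intro N1 N2 X b1 b2 b3
          refine le_of_mul_le_mul_left ?_ gκ
          calc κ * (N1 + ((Fintype.card α : ℝ) - 1) * N2) = κ * N1 + ((Fintype.card α : ℝ) - 1) * (κ * N2) := by ring
            _ ≤ κ * (ν * X) + ((Fintype.card α : ℝ) - 1) * X :=
              add_le_add (mul_le_mul_of_nonneg_left b1 gκ.le) (mul_le_mul_of_nonneg_left b2 (by linarith))
            _ = (ν * κ + ((Fintype.card α : ℝ) - 1)) * X := by ring
            _ ≤ ν ^ 2 * κ * X := mul_le_mul_of_nonneg_right g4 b3.le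
            _ = κ * (ν ^ 2 * X) := by ring
        have hknown : ∀ ρ : (ℕ → α) → α,
            (∀ (u τ : ℕ → α) (c : ℕ → ℕ), (∀ a ∈ F, u (a + c a) = τ a) → Tst P Q u c i → c i = s → u (i + s) = ρ τ) →
            ((S P Q a0 (i + 1) s F).ncard : ℝ) ≤ ν ^ 2 * pot ν κ μ m F.card s (cnt Q i) := by
          intro ρ hρ
          have hZ := step_known P Q a0 i s F hF' ρ hρ
          have hZ' : ((S P Q a0 (i + 1) s F).ncard : ℝ) ≤ (S P Q a0 i s F).ncard +
              ((Fintype.card α : ℝ) - 1) * (Y P Q a0 i s F).ncard := by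
            rw [← hcast]
            exact_mod_cast hZ
          refine hZ'.trans (key _ _ _ ?_ hY hX)
          have h9 : 1 * pot ν κ μ m F.card s (cnt Q i) ≤ ν * pot ν κ μ m F.card s (cnt Q i) :=
            mul_le_mul_of_nonneg_right g1 hX.le
          linarith
        have hQi : Q[i]? = some Q[i] := List.getElem?_eq_getElem hi
        cases hsym : Q[i] with
        | inr b =>
          rw [hsym] at hQi
          refine hknown (fun _ => b) ?_
          intro u τ c _ hT hc
          have := (hT hiQ (by rw [hc]; exact htP)).1 b hQi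
          rw [hc] at this
          exact this
        | inl y =>
          rw [hsym] at hQi
          obtain ⟨b, hb⟩ := refPos_exists hiQ hQi
          by_cases hbF : b ∈ F
          · refine hknown (fun τ => τ b) ?_
            intro u τ c hp hT hc
            have := (hT hiQ (by rw [hc]; exact htP)).2 b hb
            rw [hc] at this
            rw [this]
            exact hp b hbF
          · have hZ := step_new P Q a0 i s F hF' hiQ htP hb hbF
            have hZ' : ((S P Q a0 (i + 1) s F).ncard : ℝ) ≤ (S P Q a0 i s (insert b F)).ncard +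
                ((Fintype.card α : ℝ) - 1) * (Y P Q a0 i s F).ncard := by
              rw [← hcast]
              exact_mod_cast hZ
            have hbs := refPos_spec hb
            have hN1 := hA s hs (insert b F) (fun a ha => by
              rcases mem_insert.1 ha with h1 | h1
              · rw [h1]; exact hbs.1
              · exact hF' a h1) (insert_subset hbs.2.1 hFQ)
            rw [hm, card_insert_of_notMem hbF, pot_e] at hN1
            exact hZ'.trans (key _ _ _ hN1 hY hX)
      · rw [cnt_succ_notMem htP, hm]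
        have hZ := step_det P Q a0 i s F hF' ht htP
        have hZ' : ((S P Q a0 (i + 1) s F).ncard : ℝ) ≤ (S P Q a0 i s F).ncard := by
          exact_mod_cast hZ
        linarith

/-- the main bound -/
theorem S_bound [Fintype α] [Nonempty α] (P Q : Pattern α) (a0 : α) {ν κ μ : ℝ} (h : Par (Fintype.card α) ν κ μ) (d : ℕ)
    (hlen : P.length = Q.length + d) : ∀ i ≤ Q.length, ∀ s ≤ d, ∀ F : Finset ℕ, (∀ a ∈ F, a < i) → F ⊆ firstPos Q →
      ((S P Q a0 i s F).ncard : ℝ) ≤ pot ν κ μ (cnt P (i + s)) F.card s (cnt Q i) := by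
  intro i
  induction i with
  | zero =>
    intro _ s hs F hF _
    have hF0 : F = ∅ := by
      apply Finset.eq_empty_of_forall_notMem
      intro a ha
      exact absurd (hF a ha) (Nat.not_lt_zero a)
    rw [hF0, card_empty, Nat.zero_add, cnt_zero]
    exact base_bound P Q a0 h s (by omega)
  | succ i IH =>
    intro hi s
    induction s with
    | zero =>
      intro hs F hF hFQ
      exact S_step P Q a0 h d hlen i (by omega) 0 hs F hF hFQ (fun s hs F hF hFQ => IH (by omega) s hs F hF hFQ)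
        (fun s' hs' => absurd hs' (by omega))
    | succ s ihs =>
      intro hs F hF hFQ
      exact S_step P Q a0 h d hlen i (by omega) (s + 1) hs F hF hFQ (fun s hs F hF hFQ => IH (by omega) s hs F hF hFQ)
        (fun s' hs' => by
          have : s' = s := by omega
          subst this
          exact ihs (by omega) F hF hFQ)

end Pool.Agent.IDQ
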