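import Mathlib
import Pool.Agent.IDQ.Bound

/-!
# IDQ (helper67): a second bound, with exact sums, for small differences of the lengths
-/

set_option autoImplicit false

namespace Pool.Agent.IDQ

open Finset Pool.Agent.Helper92.IncDepth Function

variable {α : Type}

/-- the sums of weights: `m` tests, `e` pending positions, at most `s` skips -/
noncomputable def H (q : ℝ) : ℕ → ℕ → ℕ → ℝ
  | 0, _, _ => 1
  | _ + 1, 0, 0 => 1
  | s + 1, 0, e + 1 => H q (s + 1) 0 e + H q s 0 (e + 1)
  | s + 1, m + 1, e => H q (s + 1) m (e + 1) + q * H q s (m + 1) e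
termination_by s m e => (s, 2 * m + e)

theorem H_zero (q : ℝ) (m e : ℕ) : H q 0 m e = 1 := by
  rw [H]

theorem H_zero_zero (q : ℝ) (s : ℕ) : H q s 0 0 = 1 := by
  cases s with
  | zero => rw [H]
  | succ s => rw [H]

/-- the shifted function -/
noncomputable def H' (q : ℝ) (s m e : ℕ) : ℝ := if s = 0 then 0 else H q (s - 1) m e

theorem H'_zero (q : ℝ) (m e : ℕ) : H' q 0 m e = 0 := by simp [H']

theorem H'_succ (q : ℝ) (s m e : ℕ) : H' q (s + 1) m e = H q s m e := by simp [H']

theorem H_test (q : ℝ) (s m e : ℕ) : H q s (m + 1) e = H q s m (e + 1) + q * H' q s (m + 1) e := by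
  cases s with
  | zero => rw [H_zero, H_zero, H'_zero, mul_zero, add_zero]
  | succ s => rw [H'_succ, H]

theorem H_pend (q : ℝ) (s : ℕ) : ∀ m e : ℕ, H q s m (e + 1) = H q s m e + H' q s m (e + 1) := by
  induction s with
  | zero =>
    intro m e
    rw [H_zero, H_zero, H'_zero, add_zero]
  | succ s ihs =>
    intro m
    induction m with
    | zero =>
      intro e
      rw [H'_succ, H]
    | succ m ihm =>
      intro e
      have h1 := H_test q s m (e + 1)
      have h2 := ihs (m + 1) e
      rw [H_test q (s + 1) m (e + 1), H_test q (s + 1) m e, ihm (e + 1), H'_succ, H'_succ, H'_succ]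
      linear_combination (-1) * h1 + q * h2

theorem H_pos {q : ℝ} (hq : 0 ≤ q) (s : ℕ) : ∀ m e : ℕ, 0 < H q s m e := by
  induction s with
  | zero =>
    intro m e
    rw [H_zero]
    norm_num
  | succ s ihs =>
    intro m
    induction m with
    | zero =>
      intro e
      induction e with
      | zero =>
        rw [H_zero_zero]
        norm_num
      | succ e ihe =>
        rw [H_pend, H'_succ]
        exact add_pos ihe (ihs _ _)
    | succ m ihm =>
      intro e
      rw [H_test, H'_succ]
      exact add_pos_of_pos_of_nonneg (ihm _) (mul_nonneg hq (ihs _ _).le)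

theorem H'_nonneg {q : ℝ} (hq : 0 ≤ q) (s m e : ℕ) : 0 ≤ H' q s m e := by
  cases s with
  | zero => rw [H'_zero]
  | succ s =>
    rw [H'_succ]
    exact (H_pos hq s m e).le

theorem cnt_le (P : Pattern α) (t : ℕ) : cnt P t ≤ t := by
  unfold cnt
  calc _ ≤ (range t).card := by
        apply card_le_card
        intro j hj
        rw [mem_filter] at hj
        exact mem_range.2 hj.2
    _ = t := card_range t

/-- the number of words of the form of the first `s` symbols -/
theorem base_count [Fintype α] (P Q : Pattern α) (a0 : α) (s : ℕ) (hs : s ≤ P.length) :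
    (S P Q a0 0 s ∅).ncard ≤ Fintype.card α ^ cnt P s := by
  have hsub : ∀ s, ∀ z ∈ S P Q a0 0 (s + 1) ∅, (update z.1 s a0, z.2) ∈ S P Q a0 0 s ∅ := by
    rintro s z ⟨hW, hτ, -⟩
    refine ⟨?_, hτ, fun _ => 0, ?_⟩
    · rw [Nat.zero_add] at hW ⊢
      exact hW.trunc
    · exact ⟨fun _ _ _ => le_rfl, fun _ => Nat.zero_le _, fun j hj => absurd hj (Nat.not_lt_zero j), by simp⟩
  induction s with
  | zero =>
    rw [cnt_zero, pow_zero, Set.ncard_le_one (S_finite P Q a0 0 0 ∅)]
    rintro z ⟨hW, hτ, -⟩ z' ⟨hW', hτ', -⟩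
    refine Prod.ext ?_ ?_
    · funext j
      rw [hW.1 j (by omega), hW'.1 j (by omega)]
    · funext j
      rw [hτ j (by simp), hτ' j (by simp)]
  | succ s ih =>
    have ih' := ih (by omega)
    by_cases hsP : s ∈ firstPos P
    · rw [cnt_succ_mem hsP, pow_succ, mul_comm]
      refine (count_free (S_finite P Q a0 0 s ∅) (fun z => (update z.1 s a0, z.2)) (fun z => z.1 s) (hsub s) ?_).trans
        (Nat.mul_le_mul_left _ ih')
      intro z _ z' _ h h'
      simp only [Prod.mk.injEq] at h
      refine Prod.ext ?_ h.2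
      funext j
      by_cases hj : j = s
      · rw [hj]
        exact h'
      · have := congrFun h.1 j
        rwa [update_of_ne hj, update_of_ne hj] at this
    · rw [cnt_succ_notMem hsP]
      refine (count_inj (S_finite P Q a0 0 s ∅) (fun z => (update z.1 s a0, z.2)) (hsub s) ?_).trans ih'
      rintro z ⟨hW, -⟩ z' ⟨hW', -⟩ h
      simp only [Prod.mk.injEq] at h
      rw [Nat.zero_add] at hW hW'
      exact Prod.ext (Wd.det (by omega) hsP hW hW' h.1) h.2

/-- one step of the induction -/
theorem T_step [Fintype α] [Nonempty α] (P Q : Pattern α) (a0 : α) {q : ℝ}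
    (hq : (Fintype.card α : ℝ) * q = (Fintype.card α : ℝ) - 1) (d : ℕ)
    (hlen : P.length = Q.length + d) (hk1 : (1 : ℝ) ≤ Fintype.card α)
    (hcast : ((Fintype.card α - 1 : ℕ) : ℝ) = (Fintype.card α : ℝ) - 1) (hq0 : 0 ≤ q)
    (i : ℕ) (hi : i < Q.length) (s : ℕ) (hs : s ≤ d) (F : Finset ℕ)
    (hF : ∀ a ∈ F, a < i + 1) (hFQ : F ⊆ firstPos Q)
    (hA : ∀ s ≤ d, ∀ F : Finset ℕ, (∀ a ∈ F, a < i) → F ⊆ firstPos Q →
      ∀ m : ℕ, (m = 0 ∨ m + s + cnt Q i ≤ cnt P (i + s)) →
      ((S P Q a0 i s F).ncard : ℝ) * (Fintype.card α : ℝ) ^ m ≤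
        (Fintype.card α : ℝ) ^ cnt P (i + s) * H q s m F.card)
    (m : ℕ) (hm : m = 0 ∨ m + s + cnt Q (i + 1) ≤ cnt P (i + 1 + s))
    (hB : ∀ m : ℕ, (m = 0 ∨ m + s + cnt Q (i + 1) ≤ cnt P (i + s) + 1) →
      ((Y P Q a0 i s F).ncard : ℝ) * (Fintype.card α : ℝ) ^ m ≤
        (Fintype.card α : ℝ) ^ cnt P (i + s) * H' q s m F.card) :
    ((S P Q a0 (i + 1) s F).ncard : ℝ) * (Fintype.card α : ℝ) ^ m ≤
      (Fintype.card α : ℝ) ^ cnt P (i + 1 + s) * H q s m F.card := by
  have hk0 : (0 : ℝ) < Fintype.card α := by linarith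
  have ht : i + s < P.length := by omega
  have e1 : i + 1 + s = i + s + 1 := by ring
  rw [e1] at hm ⊢
  have hkm : (0 : ℝ) < (Fintype.card α : ℝ) ^ m := by positivity
  have hkM : (0 : ℝ) < (Fintype.card α : ℝ) ^ cnt P (i + s) := by positivity
  by_cases hiF : i ∈ F
  · have hiQ := hFQ hiF
    rw [cnt_succ_mem hiQ] at hm hB
    have hcard : F.card = (F.erase i).card + 1 := by
      rw [card_erase_of_mem hiF]
      have := card_pos.2 ⟨i, hiF⟩
      omega
    have hN1 := hA s hs (F.erase i) (fun a ha => by
      rw [mem_erase] at ha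
      have := hF a ha.2
      omega) ((erase_subset i F).trans hFQ) m
    rw [hcard] at hB ⊢
    rw [H_pend]
    by_cases htP : i + s ∈ firstPos P
    · rw [cnt_succ_mem htP] at hm ⊢
      have b1 := hN1 (by omega)
      have b2 := hB m (by omega)
      have hZ := step_pend P Q a0 i s F hF hiF
      have hZ' : ((S P Q a0 (i + 1) s F).ncard : ℝ) ≤ Fintype.card α * (S P Q a0 i s (F.erase i)).ncard +
          ((Fintype.card α : ℝ) - 1) * (Y P Q a0 i s F).ncard := by
        rw [← hcast]
        exact_mod_cast hZ
      have b3 := mul_le_mul_of_nonneg_right hZ' hkm.le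
      have b4 := mul_le_mul_of_nonneg_left b1 hk0.le
      have b5 := mul_le_mul_of_nonneg_left b2 (show (0 : ℝ) ≤ (Fintype.card α : ℝ) - 1 by linarith)
      have b6 : (Fintype.card α : ℝ) ^ cnt P (i + s) * H' q s m ((F.erase i).card + 1) * ((Fintype.card α : ℝ) - 1) ≤
          (Fintype.card α : ℝ) ^ cnt P (i + s) * H' q s m ((F.erase i).card + 1) * (Fintype.card α : ℝ) :=
        mul_le_mul_of_nonneg_left (by linarith) (mul_nonneg hkM.le (H'_nonneg hq0 _ _ _))
      rw [pow_succ]
      nlinarith
    · rw [cnt_succ_notMem htP] at hm ⊢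
      have b1 := hN1 (by omega)
      have b2 := hB m (by omega)
      have hZ := step_pend_det P Q a0 i s F hF hiF ht htP
      have hZ' : ((S P Q a0 (i + 1) s F).ncard : ℝ) ≤ (S P Q a0 i s (F.erase i)).ncard + (Y P Q a0 i s F).ncard := by
        exact_mod_cast hZ
      have b3 := mul_le_mul_of_nonneg_right hZ' hkm.le
      nlinarith
  · have hF' : ∀ a ∈ F, a < i := by
      intro a ha
      have h1 := hF a ha
      have h2 : a ≠ i := fun h3 => hiF (h3 ▸ ha)
      omega
    have hN := hA s hs F hF' hFQ
    by_cases hiQ : i ∈ firstPos Q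
    · rw [cnt_succ_mem hiQ] at hm
      by_cases htP : i + s ∈ firstPos P
      · rw [cnt_succ_mem htP] at hm ⊢
        have b1 := hN m (by omega)
        have hZ := step_free P Q a0 i s F hF'
        have hZ' : ((S P Q a0 (i + 1) s F).ncard : ℝ) ≤ Fintype.card α * (S P Q a0 i s F).ncard := by
          exact_mod_cast hZ
        have b3 := mul_le_mul_of_nonneg_right hZ' hkm.le
        have b4 := mul_le_mul_of_nonneg_left b1 hk0.le
        rw [pow_succ]
        nlinarith
      · rw [cnt_succ_notMem htP] at hm ⊢
        have b1 := hN m (by omega)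
        have hZ := step_det P Q a0 i s F hF' ht htP
        have hZ' : ((S P Q a0 (i + 1) s F).ncard : ℝ) ≤ (S P Q a0 i s F).ncard := by
          exact_mod_cast hZ
        have b3 := mul_le_mul_of_nonneg_right hZ' hkm.le
        linarith
    · rw [cnt_succ_notMem hiQ] at hm hB
      by_cases htP : i + s ∈ firstPos P
      · rw [cnt_succ_mem htP] at hm ⊢
        cases m with
        | zero =>
          have b1 := hN 0 (Or.inl rfl)
          have hZ := step_free P Q a0 i s F hF'
          have hZ' : ((S P Q a0 (i + 1) s F).ncard : ℝ) ≤ Fintype.card α * (S P Q a0 i s F).ncard := by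
            exact_mod_cast hZ
          have b3 := mul_le_mul_of_nonneg_right hZ' hkm.le
          have b4 := mul_le_mul_of_nonneg_left b1 hk0.le
          rw [pow_succ]
          nlinarith
        | succ m =>
          have b2 := hB (m + 1) (by omega)
          have key : ∀ N1 : ℝ, N1 * (Fintype.card α : ℝ) ^ m ≤ (Fintype.card α : ℝ) ^ cnt P (i + s) * H q s m (F.card + 1) →
              ((S P Q a0 (i + 1) s F).ncard : ℝ) ≤ N1 + ((Fintype.card α : ℝ) - 1) * (Y P Q a0 i s F).ncard →
              ((S P Q a0 (i + 1) s F).ncard : ℝ) * (Fintype.card α : ℝ) ^ (m + 1) ≤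
                (Fintype.card α : ℝ) ^ (cnt P (i + s) + 1) * H q s (m + 1) F.card := by
            intro N1 h1 h2
            have b3 := mul_le_mul_of_nonneg_right h2 hkm.le
            have b4 := mul_le_mul_of_nonneg_left h1 hk0.le
            have b5 := mul_le_mul_of_nonneg_left b2 (show (0 : ℝ) ≤ (Fintype.card α : ℝ) - 1 by linarith)
            calc ((S P Q a0 (i + 1) s F).ncard : ℝ) * (Fintype.card α : ℝ) ^ (m + 1)
                ≤ (N1 + ((Fintype.card α : ℝ) - 1) * (Y P Q a0 i s F).ncard) * (Fintype.card α : ℝ) ^ (m + 1) := b3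
              _ = (Fintype.card α : ℝ) * (N1 * (Fintype.card α : ℝ) ^ m) + ((Fintype.card α : ℝ) - 1) *
                  ((Y P Q a0 i s F).ncard * (Fintype.card α : ℝ) ^ (m + 1)) := by rw [pow_succ]; ring
              _ ≤ (Fintype.card α : ℝ) * ((Fintype.card α : ℝ) ^ cnt P (i + s) * H q s m (F.card + 1)) +
                  ((Fintype.card α : ℝ) - 1) * ((Fintype.card α : ℝ) ^ cnt P (i + s) * H' q s (m + 1) F.card) :=
                add_le_add b4 b5
              _ = (Fintype.card α : ℝ) ^ (cnt P (i + s) + 1) * H q s (m + 1) F.card := by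
                rw [← hq, H_test, pow_succ]
                ring
          have hknown : ∀ ρ : (ℕ → α) → α,
              (∀ (u τ : ℕ → α) (c : ℕ → ℕ), (∀ a ∈ F, u (a + c a) = τ a) → Tst P Q u c i → c i = s → u (i + s) = ρ τ) →
              ((S P Q a0 (i + 1) s F).ncard : ℝ) * (Fintype.card α : ℝ) ^ (m + 1) ≤
                (Fintype.card α : ℝ) ^ (cnt P (i + s) + 1) * H q s (m + 1) F.card := by
            intro ρ hρ
            have hZ := step_known P Q a0 i s F hF' ρ hρ
            have hZ' : ((S P Q a0 (i + 1) s F).ncard : ℝ) ≤ (S P Q a0 i s F).ncard +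
                ((Fintype.card α : ℝ) - 1) * (Y P Q a0 i s F).ncard := by
              rw [← hcast]
              exact_mod_cast hZ
            refine key _ ((hN m (by omega)).trans ?_) hZ'
            refine mul_le_mul_of_nonneg_left ?_ hkM.le
            rw [H_pend]
            have := H'_nonneg hq0 s m (F.card + 1)
            linarith
          have hQi : Q[i]? = some Q[i] := List.getElem?_eq_getElem hi
          cases hsym : Q[i] with
          | inr b =>
            rw [hsym] at hQi
            refine hknown (fun _ => b) ?_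
            intro u τ c _ hT hc
            have := (hT hiQ (by rw [hc]; exact htP)).1 b hQi
            rw [hc] at this
            exact this
          | inl y =>
            rw [hsym] at hQi
            obtain ⟨b, hb⟩ := refPos_exists hiQ hQi
            by_cases hbF : b ∈ F
            · refine hknown (fun τ => τ b) ?_
              intro u τ c hp hT hc
              have := (hT hiQ (by rw [hc]; exact htP)).2 b hb
              rw [hc] at this
              rw [this]
              exact hp b hbF
            · have hZ := step_new P Q a0 i s F hF' hiQ htP hb hbF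
              have hZ' : ((S P Q a0 (i + 1) s F).ncard : ℝ) ≤ (S P Q a0 i s (insert b F)).ncard +
                  ((Fintype.card α : ℝ) - 1) * (Y P Q a0 i s F).ncard := by
                rw [← hcast]
                exact_mod_cast hZ
              have hbs := refPos_spec hb
              have hN1 := hA s hs (insert b F) (fun a ha => by
                rcases mem_insert.1 ha with h1 | h1
                · rw [h1]; exact hbs.1
                · exact hF' a h1) (insert_subset hbs.2.1 hFQ) m (by omega)
              rw [card_insert_of_notMem hbF] at hN1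
              exact key _ hN1 hZ'
      · rw [cnt_succ_notMem htP] at hm ⊢
        have b1 := hN m hm
        have hZ := step_det P Q a0 i s F hF' ht htP
        have hZ' : ((S P Q a0 (i + 1) s F).ncard : ℝ) ≤ (S P Q a0 i s F).ncard := by
          exact_mod_cast hZ
        have b3 := mul_le_mul_of_nonneg_right hZ' hkm.le
        linarith

/-- the bound with exact sums -/
theorem S_trunc [Fintype α] [Nonempty α] (P Q : Pattern α) (a0 : α) {q : ℝ}
    (hq : (Fintype.card α : ℝ) * q = (Fintype.card α : ℝ) - 1) (d : ℕ)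
    (hlen : P.length = Q.length + d) : ∀ i ≤ Q.length, ∀ s ≤ d, ∀ F : Finset ℕ, (∀ a ∈ F, a < i) → F ⊆ firstPos Q →
      ∀ m : ℕ, (m = 0 ∨ m + s + cnt Q i ≤ cnt P (i + s)) →
      ((S P Q a0 i s F).ncard : ℝ) * (Fintype.card α : ℝ) ^ m ≤
        (Fintype.card α : ℝ) ^ cnt P (i + s) * H q s m F.card := by
  have hk1 : (1 : ℝ) ≤ Fintype.card α := by exact_mod_cast Fintype.card_pos
  have hk0 : (0 : ℝ) < Fintype.card α := by linarith
  have hcast : ((Fintype.card α - 1 : ℕ) : ℝ) = (Fintype.card α : ℝ) - 1 := by
    rw [Nat.cast_sub Fintype.card_pos, Nat.cast_one]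
  have hq0 : 0 ≤ q := by
    by_contra hneg
    have : (Fintype.card α : ℝ) * q < 0 := mul_neg_of_pos_of_neg hk0 (not_le.1 hneg)
    linarith
  intro i
  induction i with
  | zero =>
    intro _ s hs F hF _ m hm
    have hF0 : F = ∅ := by
      apply Finset.eq_empty_of_forall_notMem
      intro a ha
      exact absurd (hF a ha) (Nat.not_lt_zero a)
    have hm0 : m = 0 := by
      rcases hm with h | h
      · exact h
      · have := cnt_le P (0 + s)
        omega
    rw [hF0, hm0, card_empty, Nat.zero_add, H_zero_zero, pow_zero, mul_one, mul_one]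
    exact_mod_cast base_count P Q a0 s (by omega)
  | succ i IH =>
    intro hi s
    induction s with
    | zero =>
      intro hs F hF hFQ m hm
      refine T_step P Q a0 hq d hlen hk1 hcast hq0 i (by omega) 0 hs F hF hFQ
        (fun s hs F hF hFQ => IH (by omega) s hs F hF hFQ) m hm ?_
      intro m' _
      have h1 : Y P Q a0 i 0 F = ∅ := by
        apply Set.eq_empty_of_forall_notMem
        rintro z ⟨s', hs, -⟩
        omega
      rw [h1, Set.ncard_empty, H'_zero, Nat.cast_zero, zero_mul, mul_zero]
    | succ s ihs =>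
      intro hs F hF hFQ m hm
      refine T_step P Q a0 hq d hlen hk1 hcast hq0 i (by omega) (s + 1) hs F hF hFQ
        (fun s hs F hF hFQ => IH (by omega) s hs F hF hFQ) m hm ?_
      intro m' hm'
      have h1 : Y P Q a0 i (s + 1) F = S P Q a0 (i + 1) s F := by
        ext z
        constructor
        · rintro ⟨s', hs, hz⟩
          have : s' = s := by omega
          exact this ▸ hz
        · intro hz
          exact ⟨s, rfl, hz⟩
      have e : i + 1 + s = i + (s + 1) := by ring
      rw [h1, H'_succ, ← e]
      refine ihs (by omega) F hF hFQ m' ?_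
      rw [e]
      rcases hm' with h | h
      · exact Or.inl h
      · right
        omega

end Pool.Agent.IDQ
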