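import Mathlib
import Pool.Agent.IDQ.Exact
import Pool.Agent.Helper92.IncDepth.Depth

/-!
# IDQ (helper67): bounds for the number of variables and for the inclusion depth
-/

set_option autoImplicit false

namespace Pool.Agent.IDQ

open Finset Pool.Agent.Helper92.IncDepth Function

variable {α : Type}

/-- all words are counted -/
theorem top_count [Fintype α] (P Q : Pattern α) (a0 : α) (hlang : patternLanguage P ⊆ patternLanguage Q) (d : ℕ)
    (hlen : P.length = Q.length + d) :
    Fintype.card α ^ numVar P ≤ (S P Q a0 Q.length d ∅).ncard := by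
  classical
  have hcard : Fintype.card ({x // x ∈ patternVars P} → α) = Fintype.card α ^ numVar P := by
    rw [Fintype.card_fun, Fintype.card_coe]
    rfl
  rw [← hcard, ← Nat.card_eq_fintype_card, ← Set.ncard_univ]
  refine Set.ncard_le_ncard_of_injOn
    (fun w => ((fun j => (P[j]?).elim a0 (letterOf (extendFun a0 (patternVars P) w))), fun _ => a0)) ?_ ?_
    (S_finite P Q a0 _ _ _)
  · intro w _
    set f := extendFun a0 (patternVars P) w with hf
    obtain ⟨σ, hσ, hw⟩ := hlang (letterWord_mem f P)
    obtain ⟨c, hc, hcd, hcr⟩ := parse hσ Q _ hw d (by rw [List.length_map, hlen])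
    have hread : ∀ j s, Q[j]? = some s → (P[j + c j]?).elim a0 (letterOf f) = letterOf (fun x => (σ x).head (hσ x)) s := by
      intro j s hs
      have h1 := hcr j s hs
      rw [List.getElem?_map] at h1
      have h2 : (substSymbol σ s)[0]? = some (letterOf (fun x => (σ x).head (hσ x)) s) := by
        cases s with
        | inl x =>
          have h3 : substSymbol σ (Sum.inl x) = σ x := rfl
          rw [h3]
          have h4 : letterOf (fun x => (σ x).head (hσ x)) (Sum.inl x) = (σ x).head (hσ x) := rfl
          rw [h4]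
          rw [← List.head?_eq_getElem?, List.head?_eq_some_head (hσ x)]
        | inr a => rfl
      rw [h2] at h1
      cases hP : P[j + c j]? with
      | none => rw [hP] at h1; simp at h1
      | some t =>
        rw [hP] at h1
        simp only [Option.map_some, Option.some.injEq] at h1
        exact h1
    refine ⟨⟨?_, ?_, ?_⟩, fun _ _ => rfl, c, hc, hcd, ?_, by simp⟩
    · intro j hj
      simp only
      rw [List.getElem?_eq_none (by omega)]
      rfl
    · intro j b _ hb
      simp only
      rw [hb]
      rfl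
    · intro j j' x _ _ hx hx'
      simp only
      rw [hx, hx']
    · intro j hj hjQ _
      refine ⟨?_, ?_⟩
      · intro b hb
        exact hread j _ hb
      · intro a ha
        obtain ⟨-, -, y, hy, hy'⟩ := refPos_spec ha
        simp only
        rw [hread j _ hy', hread a _ hy]
  · intro w _ w' _ h
    simp only [Prod.mk.injEq] at h
    funext x
    obtain ⟨x, hx⟩ := x
    obtain ⟨j, hj⟩ := List.getElem?_of_mem (mem_patternVars.1 hx)
    have h1 := congrFun h.1 j
    simp only [hj] at h1
    change extendFun a0 (patternVars P) w x = extendFun a0 (patternVars P) w' x at h1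
    rw [extendFun_mem a0 _ w hx, extendFun_mem a0 _ w' hx] at h1
    exact h1

/-- the product bound -/
theorem prod_bound [Fintype α] [Nonempty α] {P Q : Pattern α} (hlang : patternLanguage P ⊆ patternLanguage Q) (d : ℕ)
    (hlen : P.length = Q.length + d) {ν κ μ : ℝ} (h : Par (Fintype.card α) ν κ μ) (hk : (Fintype.card α : ℝ) = ν ^ 2 * μ)
    {x : ℕ} (hx : numVar Q + x ≤ numVar P) : μ ^ x ≤ κ ^ d := by
  obtain ⟨a0⟩ := ‹Nonempty α›
  have h1 := top_count P Q a0 hlang d hlen
  have h2 := S_bound P Q a0 h d hlen Q.length le_rfl d le_rfl ∅ (by simp) (by simp)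
  rw [← hlen, cnt_length, cnt_length, card_empty] at h2
  have h3 : ((Fintype.card α : ℝ)) ^ numVar P ≤ pot ν κ μ (numVar P) 0 d (numVar Q) := by
    refine le_trans ?_ h2
    exact_mod_cast h1
  unfold pot at h3
  have g1 := h.one_le_nu
  have g2 := h.one_le_mu
  rw [hk, mul_pow, ← pow_mul, add_zero, mul_assoc] at h3
  have hν : 0 < ν ^ (2 * numVar P) := by positivity
  have h4 : μ ^ numVar P ≤ κ ^ d * μ ^ numVar Q := le_of_mul_le_mul_left h3 hν
  have h5 : μ ^ (numVar Q + x) ≤ μ ^ numVar P := pow_le_pow_right₀ g2 hx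
  rw [pow_add] at h5
  have hμ : 0 < μ ^ numVar Q := by positivity
  have h6 : μ ^ numVar Q * μ ^ x ≤ μ ^ numVar Q * κ ^ d := by
    calc μ ^ numVar Q * μ ^ x ≤ μ ^ numVar P := h5
      _ ≤ κ ^ d * μ ^ numVar Q := h4
      _ = μ ^ numVar Q * κ ^ d := mul_comm _ _
  exact le_of_mul_le_mul_left h6 hμ

/-- the exact sums bound -/
theorem sum_bound [Fintype α] [Nonempty α] {P Q : Pattern α} (hlang : patternLanguage P ⊆ patternLanguage Q) (d : ℕ)
    (hlen : P.length = Q.length + d) {q : ℝ} (hq : (Fintype.card α : ℝ) * q = (Fintype.card α : ℝ) - 1)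
    {m : ℕ} (hx : numVar Q + d + m ≤ numVar P) : (Fintype.card α : ℝ) ^ m ≤ H q d m 0 := by
  have hk1 : (0 : ℝ) < Fintype.card α := by exact_mod_cast Fintype.card_pos
  obtain ⟨a0⟩ := ‹Nonempty α›
  have h1 := top_count P Q a0 hlang d hlen
  have h2 := S_trunc P Q a0 hq d hlen Q.length le_rfl d le_rfl ∅ (by simp) (by simp) m (Or.inr (by
    rw [← hlen, cnt_length, cnt_length]
    omega))
  rw [← hlen, cnt_length, card_empty] at h2
  have h3 : ((Fintype.card α : ℝ)) ^ numVar P ≤ (S P Q a0 Q.length d ∅).ncard := by exact_mod_cast h1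
  have h4 : (Fintype.card α : ℝ) ^ numVar P * (Fintype.card α : ℝ) ^ m ≤ (Fintype.card α : ℝ) ^ numVar P * H q d m 0 :=
    (mul_le_mul_of_nonneg_right h3 (by positivity)).trans h2
  exact le_of_mul_le_mul_left h4 (by positivity)

/-- every strict inclusion raises `num |p| - den #var(p)` by at least `den` -/
def Grows (α : Type) (num den : ℕ) : Prop :=
  ∀ P Q : Pattern α, patternLanguage P ⊂ patternLanguage Q →
    num * Q.length + den * numVar P + den ≤ num * P.length + den * numVar Q

theorem grows_of [Fintype α] (hcard : 2 ≤ Fintype.card α) {num den : ℕ}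
    (h : ∀ P Q : Pattern α, patternLanguage P ⊆ patternLanguage Q → ∀ d, 1 ≤ d → P.length = Q.length + d →
      ∀ x, numVar P = numVar Q + x → num * d < den * (x + 1) → False) : Grows α num den := by
  intro P Q hlt
  have h2 : ∃ a b : α, a ≠ b := two_letters hcard
  have : Nonempty α := ⟨h2.choose⟩
  have hlen := length_le_of_subset hlt.1
  obtain ⟨d, hd⟩ := Nat.exists_eq_add_of_le hlen
  rcases Nat.eq_zero_or_pos d with h0 | hpos
  · subst h0
    rw [Nat.add_zero] at hd
    obtain ⟨h3, h4⟩ := same_length_numVar h2 hlt.1 hd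
    have h5 : numVar P < numVar Q := by
      by_contra hge
      exact hlt.2 (h4 (by omega))
    rw [hd]
    have h6 : den * (numVar P + 1) ≤ den * numVar Q := Nat.mul_le_mul_left _ h5
    rw [mul_add, mul_one] at h6
    omega
  · by_contra hnot
    rw [not_le] at hnot
    rw [hd, mul_add] at hnot
    have h7 : num * d + den * numVar Q < den * (numVar P + 1) := by
      rw [mul_add, mul_one]
      omega
    rcases Nat.lt_or_ge (numVar P) (numVar Q) with h8 | h8
    · have h9 : den * (numVar P + 1) ≤ den * numVar Q := Nat.mul_le_mul_left _ h8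
      omega
    · obtain ⟨x, hx⟩ := Nat.exists_eq_add_of_le h8
      refine h P Q hlt.1 d hpos hd x hx ?_
      rw [hx] at h7
      have h10 : den * (numVar Q + x + 1) = den * numVar Q + den * (x + 1) := by ring
      omega

theorem chain_upper' [Fintype α] (hcard : 2 ≤ Fintype.card α) {num den : ℕ} (hg : Grows α num den)
    {p : Pattern α} {n : ℕ} (hn : n ∈ chainLengths p) :
    den * n + den * numVar p + num ≤ num * p.length + den := by
  have h2 := two_letters hcard
  obtain ⟨q, hq, h0, hstep, hend⟩ := hn
  have key : ∀ i ≤ n, den * i + den * numVar (q i) + num ≤ num * (q i).length + den := by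
    intro i
    induction i with
    | zero =>
      intro _
      obtain ⟨h3, h4⟩ := invariants_of_eq h2 h0
      rw [h3, h4, numVar_single, List.length_singleton]
      omega
    | succ i ih =>
      intro hi
      have h3 := ih (by omega)
      have h4 := hg _ _ (hstep i (by omega))
      rw [mul_add, mul_one]
      omega
  have h5 := key n le_rfl
  obtain ⟨h6, h7⟩ := invariants_of_eq h2 hend
  rw [h6, h7] at h5
  exact h5

/-- at least six letters -/
theorem grows_six [Fintype α] (hcard : 6 ≤ Fintype.card α) : Grows α 2 1 := by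
  have : Nonempty α := Fintype.card_pos_iff.1 (by omega)
  refine grows_of (by omega) ?_
  intro P Q hlang d hd hlen x hx hlt
  have hk6 : (6 : ℝ) ≤ Fintype.card α := by exact_mod_cast hcard
  have hp : Par (Fintype.card α) (3 / 2) (4 * ((Fintype.card α : ℝ) - 1) / 3) (4 * (Fintype.card α : ℝ) / 9) := by
    generalize (Fintype.card α) = k at hk6
    refine ⟨by norm_num, by linarith, by linarith, by nlinarith, by nlinarith, by nlinarith⟩
  have h1 := prod_bound hlang d hlen hp (by ring) (x := 2 * d) (by omega)
  rw [pow_mul] at h1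
  have h2 : 4 * ((Fintype.card α : ℝ) - 1) / 3 < (4 * (Fintype.card α : ℝ) / 9) ^ 2 := by nlinarith
  have h3 := pow_lt_pow_left₀ h2 (by linarith) (show d ≠ 0 by omega)
  linarith

/-- three letters (and more) -/
theorem grows_three [Fintype α] (hcard : 3 ≤ Fintype.card α) : Grows α 3 1 := by
  have : Nonempty α := Fintype.card_pos_iff.1 (by omega)
  refine grows_of (by omega) ?_
  intro P Q hlang d hd hlen x hx hlt
  have hk6 : (3 : ℝ) ≤ Fintype.card α := by exact_mod_cast hcard
  have hp : Par (Fintype.card α) (5 / 4) (16 * ((Fintype.card α : ℝ) - 1) / 5) (16 * (Fintype.card α : ℝ) / 25) := by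
    generalize (Fintype.card α) = k at hk6
    refine ⟨by norm_num, by linarith, by linarith, by nlinarith, by nlinarith, by nlinarith⟩
  have h1 := prod_bound hlang d hlen hp (by ring) (x := 3 * d) (by omega)
  rw [pow_mul] at h1
  have h2 : 16 * ((Fintype.card α : ℝ) - 1) / 5 < (16 * (Fintype.card α : ℝ) / 25) ^ 3 := by
    obtain ⟨e, he⟩ : ∃ e : ℝ, (Fintype.card α : ℝ) = 3 + e := ⟨Fintype.card α - 3, by ring⟩
    have he0 : 0 ≤ e := by linarith
    rw [he]
    have : 0 ≤ e ^ 2 := by positivity
    have : 0 ≤ e ^ 3 := by positivity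
    nlinarith
  have h3 := pow_lt_pow_left₀ h2 (by linarith) (show d ≠ 0 by omega)
  linarith

end Pool.Agent.IDQ
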