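import Mathlib
import Pool.Agent.IDQ.Depth

/-!
# IDQ (helper67): alphabets with two, four and five letters
-/

set_option autoImplicit false

namespace Pool.Agent.IDQ

open Finset Pool.Agent.Helper92.IncDepth Function

variable {α : Type}

theorem prod_ex {μ κ : ℝ} {x d num den : ℕ} (hμ : 1 ≤ μ) (h : μ ^ x ≤ κ ^ d) (hx : num * d < den * (x + 1)) :
    μ ^ (num * d) ≤ μ ^ (den - 1) * κ ^ (den * d) := by
  have hden : 1 ≤ den := by
    rcases Nat.eq_zero_or_pos den with h0 | h0
    · rw [h0, Nat.zero_mul] at hx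
      omega
    · exact h0
  have h1 : num * d ≤ x * den + (den - 1) := by
    have h2 : den * (x + 1) = x * den + den := by ring
    omega
  calc μ ^ (num * d) ≤ μ ^ (x * den + (den - 1)) := pow_le_pow_right₀ hμ h1
    _ = μ ^ (den - 1) * (μ ^ x) ^ den := by rw [pow_add, pow_mul, mul_comm]
    _ ≤ μ ^ (den - 1) * (κ ^ d) ^ den :=
      mul_le_mul_of_nonneg_left (pow_le_pow_left₀ (by positivity) h den) (by positivity)
    _ = μ ^ (den - 1) * κ ^ (den * d) := by rw [← pow_mul, mul_comm d den]

theorem big_d {μ κ : ℝ} {d d0 num den : ℕ} (hμ : 1 ≤ μ) (hκ : 0 < κ)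
    (h0 : μ ^ (den - 1) * κ ^ (den * d0) < μ ^ (num * d0)) (h1 : κ ^ den ≤ μ ^ num) (hd : d0 ≤ d) :
    μ ^ (den - 1) * κ ^ (den * d) < μ ^ (num * d) := by
  obtain ⟨c, rfl⟩ := Nat.exists_eq_add_of_le hd
  have hμ0 : 0 < μ := by linarith
  have h2 : κ ^ (den * c) ≤ μ ^ (num * c) := by
    rw [pow_mul, pow_mul]
    exact pow_le_pow_left₀ (by positivity) h1 c
  calc μ ^ (den - 1) * κ ^ (den * (d0 + c)) = (μ ^ (den - 1) * κ ^ (den * d0)) * κ ^ (den * c) := by
        rw [mul_add, pow_add, mul_assoc]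
    _ < μ ^ (num * d0) * κ ^ (den * c) := mul_lt_mul_of_pos_right h0 (by positivity)
    _ ≤ μ ^ (num * d0) * μ ^ (num * c) := mul_le_mul_of_nonneg_left h2 (by positivity)
    _ = μ ^ (num * (d0 + c)) := by rw [mul_add, pow_add]

/-- four letters -/
theorem grows_four [Fintype α] (hcard : Fintype.card α = 4) : Grows α 5 2 := by
  have : Nonempty α := Fintype.card_pos_iff.1 (by omega)
  refine grows_of (by omega) ?_
  intro P Q hlang d hd hlen x hx hlt
  have hk : (Fintype.card α : ℝ) = 4 := by exact_mod_cast hcard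
  have hp : Par (Fintype.card α) (4 / 3) (27 / 4) (9 / 4) := by
    refine ⟨by norm_num, by norm_num, by norm_num, ?_, ?_, by norm_num⟩ <;> rw [hk] <;> norm_num
  have hprod := fun (x : ℕ) (h : numVar Q + x ≤ numVar P) => prod_bound hlang d hlen hp (by rw [hk]; norm_num) h
  have hsum := fun (m : ℕ) (h : numVar Q + d + m ≤ numVar P) => sum_bound (q := 3 / 4) hlang d hlen (by rw [hk]; norm_num) h
  rw [hk] at hsum
  have h5 : d = 1 ∨ d = 2 ∨ d = 3 ∨ 4 ≤ d := by omega
  rcases h5 with rfl | rfl | rfl | h5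
  · have h1 := hsum 1 (by omega)
    norm_num [H_test, H_pend, H_zero, H_zero_zero, H'_zero, H'_succ] at h1
  · have h1 := hprod 5 (by omega)
    norm_num at h1
  · have h1 := hsum 3 (by omega)
    norm_num [H_test, H_pend, H_zero, H_zero_zero, H'_zero, H'_succ] at h1
  · have h1 := prod_ex (by norm_num) (hprod x (by omega)) hlt
    have h2 := big_d (μ := 9 / 4) (κ := 27 / 4) (num := 5) (den := 2) (by norm_num) (by norm_num) (by norm_num) (by norm_num) h5
    linarith

/-- five letters -/
theorem grows_five [Fintype α] (hcard : Fintype.card α = 5) : Grows α 11 5 := by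
  have : Nonempty α := Fintype.card_pos_iff.1 (by omega)
  refine grows_of (by omega) ?_
  intro P Q hlang d hd hlen x hx hlt
  have hk : (Fintype.card α : ℝ) = 5 := by exact_mod_cast hcard
  have hp : Par (Fintype.card α) (3 / 2) (16 / 3) (20 / 9) := by
    refine ⟨by norm_num, by norm_num, by norm_num, ?_, ?_, by norm_num⟩ <;> rw [hk] <;> norm_num
  have hprod := fun (x : ℕ) (h : numVar Q + x ≤ numVar P) => prod_bound hlang d hlen hp (by rw [hk]; norm_num) h
  have hsum := fun (m : ℕ) (h : numVar Q + d + m ≤ numVar P) => sum_bound (q := 4 / 5) hlang d hlen (by rw [hk]; norm_num) h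
  rw [hk] at hsum
  have h5 : d = 1 ∨ d = 2 ∨ d = 3 ∨ d = 4 ∨ d = 5 ∨ d = 6 ∨ d = 7 ∨ 8 ≤ d := by omega
  rcases h5 with rfl | rfl | rfl | rfl | rfl | rfl | rfl | h5
  · have h1 := hsum 1 (by omega)
    norm_num [H_test, H_pend, H_zero, H_zero_zero, H'_zero, H'_succ] at h1
  · have h1 := hsum 2 (by omega)
    norm_num [H_test, H_pend, H_zero, H_zero_zero, H'_zero, H'_succ] at h1
  · have h1 := hsum 3 (by omega)
    norm_num [H_test, H_pend, H_zero, H_zero_zero, H'_zero, H'_succ] at h1
  · have h1 := hsum 4 (by omega)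
    norm_num [H_test, H_pend, H_zero, H_zero_zero, H'_zero, H'_succ] at h1
  · have h1 := hprod 11 (by omega)
    norm_num at h1
  · have h1 := hprod 13 (by omega)
    norm_num at h1
  · have h1 := hprod 15 (by omega)
    norm_num at h1
  · have h1 := prod_ex (by norm_num) (hprod x (by omega)) hlt
    have h2 := big_d (μ := 20 / 9) (κ := 16 / 3) (num := 11) (den := 5) (by norm_num) (by norm_num) (by norm_num) (by norm_num) h5
    linarith

/-- two letters -/
theorem grows_two [Fintype α] (hcard : Fintype.card α = 2) : Grows α 22 5 := by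
  have : Nonempty α := Fintype.card_pos_iff.1 (by omega)
  refine grows_of (by omega) ?_
  intro P Q hlang d hd hlen x hx hlt
  have hk : (Fintype.card α : ℝ) = 2 := by exact_mod_cast hcard
  have hp : Par (Fintype.card α) (15 / 13) (169 / 30) (338 / 225) := by
    refine ⟨by norm_num, by norm_num, by norm_num, ?_, ?_, by norm_num⟩ <;> rw [hk] <;> norm_num
  have hprod := fun (x : ℕ) (h : numVar Q + x ≤ numVar P) => prod_bound hlang d hlen hp (by rw [hk]; norm_num) h
  have hsum := fun (m : ℕ) (h : numVar Q + d + m ≤ numVar P) => sum_bound (q := 1 / 2) hlang d hlen (by rw [hk]; norm_num) h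
  rw [hk] at hsum
  have h5 : d = 1 ∨ d = 2 ∨ d = 3 ∨ d = 4 ∨ d = 5 ∨ 6 ≤ d := by omega
  rcases h5 with rfl | rfl | rfl | rfl | rfl | h5
  · have h1 := hsum 3 (by omega)
    norm_num [H_test, H_pend, H_zero, H_zero_zero, H'_zero, H'_succ] at h1
  · have h1 := hsum 6 (by omega)
    norm_num [H_test, H_pend, H_zero, H_zero_zero, H'_zero, H'_succ] at h1
  · have h1 := hprod 13 (by omega)
    norm_num at h1
  · have h1 := hprod 17 (by omega)
    norm_num at h1
  · have h1 := hprod 22 (by omega)
    norm_num at h1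
  · have h1 := prod_ex (by norm_num) (hprod x (by omega)) hlt
    have h2 := big_d (μ := 338 / 225) (κ := 169 / 30) (num := 22) (den := 5) (by norm_num) (by norm_num) (by norm_num) (by norm_num) h5
    linarith

end Pool.Agent.IDQ
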